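import Mathlib

/-!
U121/LC (helper121, MP_0430e4_lc): two sets of words at Hamming distance `D` cannot both be large
(a two-set form of Talagrand's inequality on the cube).
-/

set_option autoImplicit false

namespace Pool.Agent.U121.LC

open Finset

/-- the section of `A` at first letter `i` -/
def sec {n : ℕ} (i : ZMod 2) (A : Finset (Fin (n + 1) → ZMod 2)) : Finset (Fin n → ZMod 2) :=
  univ.filter (fun a => Fin.cons (α := fun _ => ZMod 2) i a ∈ A)

lemma card_sec {n : ℕ} (A : Finset (Fin (n + 1) → ZMod 2)) :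
    A.card = (sec 0 A).card + (sec 1 A).card := by
  have h1 : A.card = ∑ x : Fin (n + 1) → ZMod 2, if x ∈ A then 1 else 0 := by
    rw [Finset.sum_boole]
    simp
  have h2 : (∑ x : Fin (n + 1) → ZMod 2, if x ∈ A then (1 : ℕ) else 0) =
      ∑ p : ZMod 2 × (Fin n → ZMod 2),
        if Fin.cons (α := fun _ => ZMod 2) p.1 p.2 ∈ A then 1 else 0 :=
    (Fintype.sum_equiv (Fin.consEquiv (fun _ => ZMod 2)) _ _ (fun p => rfl)).symm
  rw [h1, h2, Fintype.sum_prod_type]
  have h3 : (univ : Finset (ZMod 2)) = {0, 1} := rfl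
  rw [h3, Finset.sum_pair (by decide)]
  unfold sec
  rw [Finset.sum_boole, Finset.sum_boole]
  simp

lemma dist_cons {n : ℕ} (i j : ZMod 2) (a b : Fin n → ZMod 2) :
    hammingDist (Fin.cons (α := fun _ => ZMod 2) i a) (Fin.cons (α := fun _ => ZMod 2) j b) =
      (if i = j then 0 else 1) + hammingDist a b := by
  unfold hammingDist
  rw [Finset.card_filter, Finset.card_filter, Fin.sum_univ_succ]
  simp only [Fin.cons_zero, Fin.cons_succ]
  congr 1
  by_cases h : i = j <;> simp [h]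

/-- two sets at distance `D` -/
theorem blow {θ : ℝ} (hθ : 1 ≤ θ) : ∀ (n D : ℕ) (A B : Finset (Fin n → ZMod 2)),
    (∀ a ∈ A, ∀ b ∈ B, D ≤ hammingDist a b) →
      (A.card : ℝ) * B.card * θ ^ D ≤ (2 + θ + 1 / θ) ^ n := by
  have hθ0 : 0 < θ := by linarith
  intro n
  induction n with
  | zero =>
    intro D A B h
    rw [pow_zero]
    have hA : A.card ≤ 1 := (Finset.card_le_univ A).trans (by simp)
    have hB : B.card ≤ 1 := (Finset.card_le_univ B).trans (by simp)
    rcases Finset.eq_empty_or_nonempty A with hA0 | ⟨a, ha⟩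
    · simp [hA0]
    rcases Finset.eq_empty_or_nonempty B with hB0 | ⟨b, hb⟩
    · simp [hB0]
    have h1 := h a ha b hb
    have h2 : hammingDist a b = 0 := by
      rw [Subsingleton.elim a b]
      exact hammingDist_self b
    have hD : D = 0 := by omega
    rw [hD, pow_zero, mul_one]
    have hA' : (A.card : ℝ) ≤ 1 := by exact_mod_cast hA
    have hB' : (B.card : ℝ) ≤ 1 := by exact_mod_cast hB
    nlinarith [Nat.cast_nonneg (α := ℝ) A.card, Nat.cast_nonneg (α := ℝ) B.card]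
  | succ n ih =>
    intro D A B h
    have hsame : ∀ i, (((sec i A).card : ℝ) * (sec i B).card) * θ ^ D ≤ (2 + θ + 1 / θ) ^ n := by
      intro i
      apply ih
      intro a ha b hb
      have := h _ (Finset.mem_filter.1 ha).2 _ (Finset.mem_filter.1 hb).2
      rw [dist_cons, if_pos rfl, zero_add] at this
      exact this
    have hdiff : ∀ i j, i ≠ j →
        (((sec i A).card : ℝ) * (sec j B).card) * θ ^ D ≤ θ * (2 + θ + 1 / θ) ^ n := by
      intro i j hij
      have h1 := ih (D - 1) (sec i A) (sec j B) (by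
        intro a ha b hb
        have := h _ (Finset.mem_filter.1 ha).2 _ (Finset.mem_filter.1 hb).2
        rw [dist_cons, if_neg hij] at this
        omega)
      have h2 : θ ^ D ≤ θ * θ ^ (D - 1) := by
        rw [← pow_succ']
        exact pow_le_pow_right₀ hθ (by omega)
      have h3 : (0 : ℝ) ≤ ((sec i A).card : ℝ) * (sec j B).card := by positivity
      calc (((sec i A).card : ℝ) * (sec j B).card) * θ ^ D ≤
            (((sec i A).card : ℝ) * (sec j B).card) * (θ * θ ^ (D - 1)) :=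
            mul_le_mul_of_nonneg_left h2 h3
        _ = θ * ((((sec i A).card : ℝ) * (sec j B).card) * θ ^ (D - 1)) := by ring
        _ ≤ _ := mul_le_mul_of_nonneg_left h1 hθ0.le
    obtain ⟨M, hM⟩ : ∃ M : ℝ, M = (2 + θ + 1 / θ) ^ n := ⟨_, rfl⟩
    obtain ⟨t, ht⟩ : ∃ t : ℝ, t = θ ^ D := ⟨_, rfl⟩
    have ht0 : 0 < t := by rw [ht]; positivity
    have hM0 : 0 < M := by rw [hM]; positivity
    rw [card_sec A, card_sec B, pow_succ, ← hM, ← ht]
    rw [← hM, ← ht] at hsame hdiff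
    push_cast
    obtain ⟨a0, ha0⟩ : ∃ a0 : ℝ, a0 = ((sec 0 A).card : ℝ) := ⟨_, rfl⟩
    obtain ⟨a1, ha1⟩ : ∃ a1 : ℝ, a1 = ((sec 1 A).card : ℝ) := ⟨_, rfl⟩
    obtain ⟨b0, hb0⟩ : ∃ b0 : ℝ, b0 = ((sec 0 B).card : ℝ) := ⟨_, rfl⟩
    obtain ⟨b1, hb1⟩ : ∃ b1 : ℝ, b1 = ((sec 1 B).card : ℝ) := ⟨_, rfl⟩
    have e1 := hsame 0
    have e2 := hsame 1
    have e3 := hdiff 0 1 (by decide)
    have e4 := hdiff 1 0 (by decide)
    rw [← ha0, ← hb0] at e1
    rw [← ha1, ← hb1] at e2
    rw [← ha0, ← hb1] at e3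
    rw [← ha1, ← hb0] at e4
    rw [← ha0, ← ha1, ← hb0, ← hb1]
    have pa0 : 0 ≤ a0 := by rw [ha0]; positivity
    have pa1 : 0 ≤ a1 := by rw [ha1]; positivity
    have pb0 : 0 ≤ b0 := by rw [hb0]; positivity
    have pb1 : 0 ≤ b1 := by rw [hb1]; positivity
    obtain ⟨p, hp⟩ : ∃ p : ℝ, p = a0 * b1 * t := ⟨_, rfl⟩
    obtain ⟨q, hq⟩ : ∃ q : ℝ, q = a1 * b0 * t := ⟨_, rfl⟩
    have hp0 : 0 ≤ p := by rw [hp]; positivity
    have hq0 : 0 ≤ q := by rw [hq]; positivity
    rw [← hp] at e3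
    rw [← hq] at e4
    have hpq : p * q ≤ M * M := by
      calc p * q = (a0 * b0 * t) * (a1 * b1 * t) := by rw [hp, hq]; ring
        _ ≤ M * M := mul_le_mul e1 e2 (by positivity) hM0.le
    have hsum : p + q ≤ (θ + 1 / θ) * M := by
      have h1θ : 0 < 1 / θ := by positivity
      have hθθ : θ * (1 / θ) = 1 := by field_simp
      -- (θ M - p) (θ M - q) ≥ 0 gives θ M (p + q) ≤ θ² M² + p q ≤ (θ² + 1) M²
      have h5 : 0 ≤ (θ * M - p) * (θ * M - q) := mul_nonneg (by linarith) (by linarith)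
      have h6 : (θ * M) * (p + q) ≤ (θ * M) * ((θ + 1 / θ) * M) := by
        have : (θ * M) * ((θ + 1 / θ) * M) = θ ^ 2 * M ^ 2 + θ * (1 / θ) * M ^ 2 := by ring
        rw [this, hθθ]
        nlinarith
      exact le_of_mul_le_mul_left h6 (by positivity)
    calc (a0 + a1) * (b0 + b1) * t = (a0 * b0 * t) + (a1 * b1 * t) + (p + q) := by
          rw [hp, hq]; ring
      _ ≤ M + M + (θ + 1 / θ) * M := by linarith
      _ = M * (2 + θ + 1 / θ) := by ring

end Pool.Agent.U121.LC
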