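import Mathlib

/-!
U121/LC (helper121, MP_0430e4_lc): counting generator matrices with many combinations in a set.
-/

set_option autoImplicit false

namespace Pool.Agent.U121.LC

open Finset

/-- the encoding map of a tuple of generators -/
noncomputable def ev {k : ℕ} {V : Type} [AddCommGroup V] [Module (ZMod 2) V] (G : Fin k → V) :
    (Fin k → ZMod 2) →ₗ[ZMod 2] V := Fintype.linearCombination (ZMod 2) G

lemma ev_apply {k : ℕ} {V : Type} [AddCommGroup V] [Module (ZMod 2) V] (G : Fin k → V)
    (u : Fin k → ZMod 2) : ev G u = ∑ j, u j • G j := Fintype.linearCombination_apply _ _ _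

lemma ev_add {k : ℕ} {V : Type} [AddCommGroup V] [Module (ZMod 2) V] (G G' : Fin k → V)
    (u : Fin k → ZMod 2) : ev (G + G') u = ev G u + ev G' u := by
  simp only [ev_apply, Pi.add_apply, smul_add, Finset.sum_add_distrib]

section li

variable {E : Type} [AddCommGroup E] [Module (ZMod 2) E] [Fintype E] [DecidableEq E]

open Classical in
/-- linearly independent tuples from a set -/
noncomputable def LI (U : Finset E) (r : ℕ) : Finset (Fin r → E) :=
  univ.filter (fun u => LinearIndependent (ZMod 2) u ∧ ∀ i, u i ∈ U)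

open Classical in
lemma card_span {r : ℕ} (u : Fin r → E) :
    (univ.filter (fun x : E => x ∈ Submodule.span (ZMod 2) (Set.range u))).card ≤ 2 ^ r := by
  have h1 : (univ.filter (fun x : E => x ∈ Submodule.span (ZMod 2) (Set.range u))) ⊆
      (univ : Finset (Fin r → ZMod 2)).image (fun a => ev u a) := by
    intro x hx
    rw [Finset.mem_filter] at hx
    have h2 := hx.2
    rw [← Fintype.range_linearCombination (ZMod 2) (v := u)] at h2
    obtain ⟨a, ha⟩ := h2
    exact Finset.mem_image.2 ⟨a, Finset.mem_univ _, ha⟩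
  refine (Finset.card_le_card h1).trans (Finset.card_image_le.trans ?_)
  rw [Finset.card_univ, Fintype.card_fun, ZMod.card, Fintype.card_fin]

open Classical in
lemma LI_count (U : Finset E) {T : ℝ} (hT : T ≤ U.card) :
    ∀ r : ℕ, (2 : ℝ) ^ r ≤ T → (T / 2) ^ r ≤ (LI U r).card := by
  intro r
  induction r with
  | zero =>
    intro _
    have : (LI U 0).card = 1 := by
      unfold LI
      rw [Finset.filter_true_of_mem]
      · simp
      · intro u _
        exact ⟨linearIndependent_empty_type, fun i => i.elim0⟩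
    rw [this]
    simp
  | succ r ih =>
    intro h
    have h2r : (2 : ℝ) ^ r ≤ T / 2 := by
      rw [pow_succ] at h
      linarith
    have hT0 : 0 < T := lt_of_lt_of_le (by positivity) h
    have ih' := ih (by linarith)
    obtain ⟨F, hF⟩ : ∃ F : (Fin r → E) → Finset E,
        F = fun u => U.filter (fun x => x ∉ Submodule.span (ZMod 2) (Set.range u)) := ⟨_, rfl⟩
    have hcard : ∀ u, T / 2 ≤ ((F u).card : ℝ) := by
      intro u
      have h1 : U.card ≤ (F u).card + 2 ^ r := by
        have h3 : U ⊆ F u ∪
            univ.filter (fun x : E => x ∈ Submodule.span (ZMod 2) (Set.range u)) := by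
          intro x hx
          rw [Finset.mem_union, hF]
          by_cases hxs : x ∈ Submodule.span (ZMod 2) (Set.range u)
          · right
            exact Finset.mem_filter.2 ⟨Finset.mem_univ _, hxs⟩
          · left
            exact Finset.mem_filter.2 ⟨hx, hxs⟩
        refine (Finset.card_le_card h3).trans ((Finset.card_union_le _ _).trans ?_)
        exact Nat.add_le_add_left (card_span u) _
      have h2 : (U.card : ℝ) ≤ (F u).card + 2 ^ r := by exact_mod_cast h1
      linarith
    have hsig : ((LI U r).sigma F).card ≤ (LI U (r + 1)).card := by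
      refine Finset.card_le_card_of_injOn (fun p => (Fin.snoc (α := fun _ => E) p.1 p.2)) ?_ ?_
      · intro p hp
        rw [Finset.mem_coe, Finset.mem_sigma] at hp
        obtain ⟨hp1, hp2⟩ := hp
        unfold LI at hp1 ⊢
        rw [Finset.mem_filter] at hp1
        rw [hF] at hp2
        rw [Finset.mem_filter] at hp2
        rw [Finset.mem_coe, Finset.mem_filter]
        refine ⟨Finset.mem_univ _, linearIndependent_finSnoc.2 ⟨hp1.2.1, hp2.2⟩, ?_⟩
        intro i
        show (Fin.snoc (α := fun _ => E) p.1 p.2 : Fin (r + 1) → E) i ∈ U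
        refine Fin.lastCases ?_ (fun j => ?_) i
        · rw [Fin.snoc_last]
          exact hp2.1
        · rw [Fin.snoc_castSucc]
          exact hp1.2.2 j
      · intro p _ p' _ hpp
        have hpp' : (Fin.snoc (α := fun _ => E) p.1 p.2 : Fin (r + 1) → E) =
            Fin.snoc (α := fun _ => E) p'.1 p'.2 := hpp
        have e1 : p.1 = p'.1 := by
          have := congrArg (Fin.init (α := fun _ => E)) hpp'
          rw [Fin.init_snoc, Fin.init_snoc] at this
          exact this
        have e2 : p.2 = p'.2 := by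
          have := congrFun hpp' (Fin.last r)
          rw [Fin.snoc_last, Fin.snoc_last] at this
          exact this
        obtain ⟨a, b⟩ := p
        obtain ⟨a', b'⟩ := p'
        simp only at e1 e2
        subst e1
        subst e2
        rfl
    calc (T / 2) ^ (r + 1) = (T / 2) ^ r * (T / 2) := pow_succ _ _
      _ ≤ (LI U r).card * (T / 2) := mul_le_mul_of_nonneg_right ih' (by positivity)
      _ = ∑ _u ∈ LI U r, (T / 2) := by rw [Finset.sum_const, nsmul_eq_mul]
      _ ≤ ∑ u ∈ LI U r, ((F u).card : ℝ) := Finset.sum_le_sum fun u _ => hcard u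
      _ = (((LI U r).sigma F).card : ℝ) := by rw [Finset.card_sigma]; push_cast; rfl
      _ ≤ _ := by exact_mod_cast hsig

end li

section fib

variable {V : Type} [AddCommGroup V] [Module (ZMod 2) V] [Fintype V] [DecidableEq V]

open Classical in
/-- matrices sending given independent messages into `S` -/
lemma fiber {k r : ℕ} (u : Fin r → (Fin k → ZMod 2)) (hu : LinearIndependent (ZMod 2) u)
    (S : Finset V) :
    (univ.filter (fun G : Fin k → V => ∀ i, ev G (u i) ∈ S)).card * Fintype.card V ^ r ≤
      S.card ^ r * Fintype.card V ^ k := by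
  -- a left inverse
  obtain ⟨g, hg⟩ := LinearMap.exists_leftInverse_of_injective (ev u)
    (by
      rw [LinearMap.ker_eq_bot]
      exact linearIndependent_iff_injective_fintypeLinearCombination.1 hu)
  have hgu : ∀ i, g (u i) = Pi.single i 1 := by
    intro i
    have h1 := LinearMap.congr_fun hg (Pi.single i 1)
    rw [LinearMap.comp_apply, LinearMap.id_apply] at h1
    rw [← h1]
    congr 1
    rw [ev_apply]
    simp [Pi.single_apply]
  obtain ⟨Ψ, hΨ⟩ : ∃ Ψ : (Fin r → V) → (Fin k → V),
    Ψ = fun x j => ∑ l, g (Pi.single j 1) l • x l := ⟨_, rfl⟩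
  have hev : ∀ x i, ev (Ψ x) (u i) = x i := by
    intro x i
    rw [ev_apply, hΨ]
    simp only [Finset.smul_sum, smul_smul]
    rw [Finset.sum_comm]
    simp only [← Finset.sum_smul]
    have h2 : ∀ l, ∑ j, u i j * g (Pi.single j 1) l = g (u i) l := by
      intro l
      have h3 : u i = ∑ j, u i j • (Pi.single j 1 : Fin k → ZMod 2) := by
        conv_lhs => rw [← Finset.univ_sum_single (u i)]
        refine Finset.sum_congr rfl fun j _ => ?_
        rw [← Pi.single_smul, smul_eq_mul, mul_one]
      conv_rhs => rw [h3, map_sum]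
      rw [Finset.sum_apply]
      refine Finset.sum_congr rfl fun j _ => ?_
      rw [map_smul, Pi.smul_apply, smul_eq_mul]
    simp only [h2, hgu]
    rw [Finset.sum_eq_single i]
    · simp
    · intro l _ hl
      rw [Pi.single_eq_of_ne hl, zero_smul]
    · intro h
      exact absurd (Finset.mem_univ _) h
  have h1 : ((univ.filter (fun G : Fin k → V => ∀ i, ev G (u i) ∈ S)) ×ˢ
      (univ : Finset (Fin r → V))).card ≤
      ((Fintype.piFinset fun _ : Fin r => S) ×ˢ (univ : Finset (Fin k → V))).card := by
    refine Finset.card_le_card_of_injOn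
      (fun p => ((fun i => ev p.1 (u i)), p.1 + Ψ p.2)) ?_ ?_
    · intro p hp
      rw [Finset.mem_coe, Finset.mem_product, Finset.mem_filter] at hp
      rw [Finset.mem_coe, Finset.mem_product, Fintype.mem_piFinset]
      exact ⟨hp.1.2, Finset.mem_univ _⟩
    · intro p _ p' _ hpp
      have e1 : ∀ i, ev p.1 (u i) = ev p'.1 (u i) := fun i =>
        congrFun (congrArg Prod.fst hpp) i
      have e2 : p.1 + Ψ p.2 = p'.1 + Ψ p'.2 := congrArg Prod.snd hpp
      have e3 : p.2 = p'.2 := by
        funext i
        have h5 : ev (p.1 + Ψ p.2) (u i) = ev (p'.1 + Ψ p'.2) (u i) := by rw [e2]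
        rw [ev_add, ev_add, hev, hev, e1 i] at h5
        exact add_left_cancel h5
      have e4 : p.1 = p'.1 := by
        rw [e3] at e2
        exact add_right_cancel e2
      exact Prod.ext e4 e3
  rw [Finset.card_product, Finset.card_product, Fintype.card_piFinset, Finset.prod_const,
    Finset.card_univ, Finset.card_univ, Finset.card_univ, Fintype.card_fun, Fintype.card_fun,
    Fintype.card_fin, Fintype.card_fin] at h1
  exact h1

open Classical in
/-- messages with image in `S` -/
noncomputable def msg {k : ℕ} (G : Fin k → V) (S : Finset V) : Finset (Fin k → ZMod 2) :=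
  univ.filter (fun u => u ≠ 0 ∧ ev G u ∈ S)

open Classical in
/-- few matrices have many messages with image in `S` -/
theorem bad_count {k : ℕ} (S : Finset V) (T : ℝ) (r : ℕ) (hT : (2 : ℝ) ^ r ≤ T) :
    ((univ.filter (fun G : Fin k → V => T ≤ (msg G S).card)).card : ℝ) * (T / 2) ^ r *
      (Fintype.card V : ℝ) ^ r ≤
      ((2 : ℝ) ^ k) ^ r * ((S.card : ℝ) ^ r * (Fintype.card V : ℝ) ^ k) := by
  obtain ⟨Bad, hBad⟩ : ∃ Bad : Finset (Fin k → V),
    Bad = univ.filter (fun G : Fin k → V => T ≤ (msg G S).card) := ⟨_, rfl⟩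
  rw [← hBad]
  obtain ⟨L, hL⟩ : ∃ L : Finset (Fin r → (Fin k → ZMod 2)),
    L = univ.filter (fun u => LinearIndependent (ZMod 2) u) := ⟨_, rfl⟩
  have h1 : (Bad.card : ℝ) * (T / 2) ^ r ≤
      ∑ G ∈ Bad, (((LI (msg G S) r).card : ℕ) : ℝ) := by
    rw [← nsmul_eq_mul, ← Finset.sum_const]
    refine Finset.sum_le_sum fun G hG => ?_
    rw [hBad, Finset.mem_filter] at hG
    exact LI_count (msg G S) hG.2 r hT
  have h2 : ∑ G ∈ Bad, (((LI (msg G S) r).card : ℕ) : ℝ) ≤
      ∑ u ∈ L, (((univ.filter (fun G : Fin k → V => ∀ i, ev G (u i) ∈ S)).card : ℕ) : ℝ) := by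
    have h3 : ∑ G ∈ Bad, (LI (msg G S) r).card ≤
        ∑ u ∈ L, (univ.filter (fun G : Fin k → V => ∀ i, ev G (u i) ∈ S)).card := by
      calc ∑ G ∈ Bad, (LI (msg G S) r).card ≤
            ∑ G : Fin k → V, (L.filter (fun u => ∀ i, ev G (u i) ∈ S)).card := by
            refine (Finset.sum_le_sum (fun G _ => ?_)).trans
              (Finset.sum_le_sum_of_subset (Finset.subset_univ Bad))
            apply Finset.card_le_card
            intro u hu
            unfold LI msg at hu
            rw [Finset.mem_filter] at hu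
            rw [Finset.mem_filter, hL, Finset.mem_filter]
            refine ⟨⟨Finset.mem_univ _, hu.2.1⟩, fun i => ?_⟩
            exact (Finset.mem_filter.1 (hu.2.2 i)).2.2
        _ = ∑ u ∈ L, (univ.filter (fun G : Fin k → V => ∀ i, ev G (u i) ∈ S)).card := by
            simp only [Finset.card_filter]
            rw [Finset.sum_comm]
    exact_mod_cast h3
  have h4 : ∀ u ∈ L, (((univ.filter (fun G : Fin k → V => ∀ i, ev G (u i) ∈ S)).card : ℕ) : ℝ) *
      (Fintype.card V : ℝ) ^ r ≤ (S.card : ℝ) ^ r * (Fintype.card V : ℝ) ^ k := by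
    intro u hu
    rw [hL, Finset.mem_filter] at hu
    have := fiber u hu.2 S
    exact_mod_cast this
  have h5 : (L.card : ℝ) ≤ ((2 : ℝ) ^ k) ^ r := by
    have : L.card ≤ (2 ^ k) ^ r := by
      refine (Finset.card_le_univ L).trans ?_
      rw [Fintype.card_fun, Fintype.card_fun, ZMod.card, Fintype.card_fin, Fintype.card_fin]
    exact_mod_cast this
  calc (Bad.card : ℝ) * (T / 2) ^ r * (Fintype.card V : ℝ) ^ r ≤
        (∑ u ∈ L, (((univ.filter (fun G : Fin k → V => ∀ i, ev G (u i) ∈ S)).card : ℕ) : ℝ)) *
          (Fintype.card V : ℝ) ^ r :=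
        mul_le_mul_of_nonneg_right (h1.trans h2) (by positivity)
    _ = ∑ u ∈ L, (((univ.filter (fun G : Fin k → V => ∀ i, ev G (u i) ∈ S)).card : ℕ) : ℝ) *
          (Fintype.card V : ℝ) ^ r := by rw [Finset.sum_mul]
    _ ≤ ∑ _u ∈ L, (S.card : ℝ) ^ r * (Fintype.card V : ℝ) ^ k := Finset.sum_le_sum h4
    _ = L.card * ((S.card : ℝ) ^ r * (Fintype.card V : ℝ) ^ k) := by
        rw [Finset.sum_const, nsmul_eq_mul]
    _ ≤ _ := mul_le_mul_of_nonneg_right h5 (by positivity)

end fib

end Pool.Agent.U121.LC
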