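import Pool.Agent.U121.LC.Count

/-!
U121/LC (helper121, MP_0430e4_lc): a generator matrix without large fibres over the level sets of
`f_B(c) = |B ∩ (B + c)|` generates a code whose translates of `B` cover a large part of the space.
-/

set_option autoImplicit false

namespace Pool.Agent.U121.LC

open Finset

/-- dyadic sums -/
def dy (n m : ℕ) : ℕ := ∑ j ∈ range (n + 1), if 2 ^ j ≤ m then 2 ^ j else 0

lemma dy_succ (n m : ℕ) : dy (n + 1) m = dy n m + if 2 ^ (n + 1) ≤ m then 2 ^ (n + 1) else 0 := by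
  unfold dy
  rw [Finset.sum_range_succ]

lemma dy_lt (n m : ℕ) : dy n m + 1 ≤ 2 ^ (n + 1) := by
  induction n with
  | zero =>
    unfold dy
    simp only [zero_add, Finset.sum_range_one, pow_zero, pow_one]
    split_ifs <;> omega
  | succ n ih =>
    rw [dy_succ, pow_succ 2 (n + 1)]
    split_ifs <;> omega

lemma dy_le (n m : ℕ) : dy n m ≤ 2 * m := by
  induction n with
  | zero =>
    unfold dy
    simp only [zero_add, Finset.sum_range_one, pow_zero]
    split_ifs <;> omega
  | succ n ih =>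
    rw [dy_succ]
    have := dy_lt n m
    split_ifs <;> omega

lemma dy_eq {n m : ℕ} (h : 2 ^ n ≤ m) : dy n m + 1 = 2 ^ (n + 1) := by
  induction n with
  | zero =>
    unfold dy
    simp only [zero_add, Finset.sum_range_one, pow_zero, pow_one] at h ⊢
    rw [if_pos h]
  | succ n ih =>
    have h2 : 2 ^ n ≤ m := by
      rw [pow_succ] at h
      omega
    have := ih h2
    rw [dy_succ, if_pos h, pow_succ 2 (n + 1)]
    omega

lemma le_dy {n m : ℕ} (h : m < 2 ^ (n + 1)) : m ≤ dy n m := by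
  induction n with
  | zero =>
    unfold dy
    simp only [zero_add, Finset.sum_range_one, pow_zero, pow_one] at h ⊢
    split_ifs <;> omega
  | succ n ih =>
    rw [dy_succ]
    by_cases h2 : 2 ^ (n + 1) ≤ m
    · rw [if_pos h2]
      have h3 : 2 ^ n ≤ m := by
        rw [pow_succ] at h2
        omega
      have := dy_eq h3
      rw [pow_succ 2 (n + 1)] at h
      omega
    · rw [if_neg h2]
      have := ih (by omega)
      omega

variable {V : Type} [AddCommGroup V] [Module (ZMod 2) V] [Fintype V] [DecidableEq V]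

/-- `|B ∩ (B - c)|` -/
def ff (B : Finset V) (c : V) : ℕ := (univ.filter (fun x : V => x ∈ B ∧ x + c ∈ B)).card

lemma ff_zero (B : Finset V) : ff B 0 = B.card := by
  unfold ff
  congr 1
  ext x
  simp

lemma ff_le (B : Finset V) (c : V) : ff B c ≤ B.card := by
  unfold ff
  apply Finset.card_le_card
  intro x hx
  exact (Finset.mem_filter.1 hx).2.1

lemma sum_ff (B : Finset V) : ∑ c, ff B c = B.card ^ 2 := by
  unfold ff
  simp only [Finset.card_filter]
  rw [Finset.sum_comm]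
  have : ∀ x : V, ∑ c : V, (if x ∈ B ∧ x + c ∈ B then (1 : ℕ) else 0) =
      if x ∈ B then B.card else 0 := by
    intro x
    by_cases hx : x ∈ B
    · rw [if_pos hx]
      simp only [hx, true_and]
      rw [Fintype.sum_equiv (Equiv.addLeft x) (fun c => if x + c ∈ B then (1 : ℕ) else 0)
        (fun y => if y ∈ B then 1 else 0) (fun c => rfl)]
      rw [Finset.sum_boole]
      simp
    · rw [if_neg hx]
      simp [hx]
  simp only [this]
  rw [← Finset.sum_filter]
  simp [sq]

/-- number of translates of `B` through `x` -/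
noncomputable def XX {k : ℕ} (G : Fin k → V) (B : Finset V) (x : V) : ℕ :=
  (univ.filter (fun u : Fin k → ZMod 2 => ev G u + x ∈ B)).card

/-- the points covered -/
noncomputable def cov {k : ℕ} (G : Fin k → V) (B : Finset V) : Finset V :=
  univ.filter (fun x : V => 0 < XX G B x)

lemma sum_XX {k : ℕ} (G : Fin k → V) (B : Finset V) : ∑ x, XX G B x = 2 ^ k * B.card := by
  unfold XX
  simp only [Finset.card_filter]
  rw [Finset.sum_comm]
  have : ∀ u : Fin k → ZMod 2, ∑ x : V, (if ev G u + x ∈ B then (1 : ℕ) else 0) = B.card := by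
    intro u
    rw [Fintype.sum_equiv (Equiv.addLeft (ev G u)) (fun c => if ev G u + c ∈ B then (1 : ℕ) else 0)
        (fun y => if y ∈ B then 1 else 0) (fun c => rfl)]
    rw [Finset.sum_boole]
    simp
  simp only [this]
  simp [ZMod.card]

lemma sum_XX_sq {k : ℕ} (G : Fin k → V) (B : Finset V) :
    ∑ x, XX G B x ^ 2 = 2 ^ k * ∑ u, ff B (ev G u) := by
  unfold XX ff
  simp only [Finset.card_filter]
  simp only [sq, Finset.sum_mul_sum]
  rw [Finset.sum_comm]
  have h1 : ∀ u : Fin k → ZMod 2, ∑ x : V, ∑ u' : Fin k → ZMod 2,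
      (if ev G u + x ∈ B then (1 : ℕ) else 0) * (if ev G u' + x ∈ B then 1 else 0) =
      ∑ v : Fin k → ZMod 2, ∑ x : V, if x ∈ B ∧ x + ev G v ∈ B then 1 else 0 := by
    intro u
    rw [Finset.sum_comm]
    rw [Fintype.sum_equiv (Equiv.subRight u) _
      (fun v => ∑ x : V, if x ∈ B ∧ x + ev G v ∈ B then (1 : ℕ) else 0)]
    intro u'
    rw [Fintype.sum_equiv (Equiv.addLeft (ev G u)) _
      (fun y => if y ∈ B ∧ y + ev G (u' - u) ∈ B then (1 : ℕ) else 0)]
    · rfl
    · intro x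
      have : Equiv.addLeft (ev G u) x + ev G (u' - u) = ev G u' + x := by
        rw [map_sub]
        simp only [Equiv.coe_addLeft]
        abel
      rw [this]
      simp only [Equiv.coe_addLeft]
      by_cases h2 : ev G u + x ∈ B <;> by_cases h3 : ev G u' + x ∈ B <;> simp [h2, h3]
  simp only [h1]
  simp [ZMod.card]

lemma cov_ge {k : ℕ} (G : Fin k → V) (B : Finset V) :
    2 ^ k * B.card ^ 2 ≤ (cov G B).card * ∑ u, ff B (ev G u) := by
  have h1 : ∑ x ∈ cov G B, XX G B x = 2 ^ k * B.card := by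
    rw [← sum_XX G B]
    unfold cov
    rw [Finset.sum_filter]
    refine Finset.sum_congr rfl fun x _ => ?_
    split_ifs with h
    · rfl
    · omega
  have h2 := sq_sum_le_card_mul_sum_sq (s := cov G B) (f := fun x => XX G B x)
  rw [h1] at h2
  have h3 : ∑ x ∈ cov G B, XX G B x ^ 2 ≤ 2 ^ k * ∑ u, ff B (ev G u) := by
    rw [← sum_XX_sq G B]
    exact Finset.sum_le_sum_of_subset (Finset.subset_univ _)
  have h4 : (2 ^ k * B.card) ^ 2 ≤ (cov G B).card * (2 ^ k * ∑ u, ff B (ev G u)) :=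
    h2.trans (Nat.mul_le_mul_left _ h3)
  have h5 : 2 ^ k * (2 ^ k * B.card ^ 2) ≤ 2 ^ k * ((cov G B).card * ∑ u, ff B (ev G u)) := by
    calc 2 ^ k * (2 ^ k * B.card ^ 2) = (2 ^ k * B.card) ^ 2 := by ring
      _ ≤ (cov G B).card * (2 ^ k * ∑ u, ff B (ev G u)) := h4
      _ = _ := by ring
  exact Nat.le_of_mul_le_mul_left h5 (by positivity)

/-- level sets -/
def lev (B : Finset V) (j : ℕ) : Finset V := univ.filter (fun c => 2 ^ j ≤ ff B c)

/-- the threshold for the number of messages in a level set -/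
noncomputable def thr (n k q : ℕ) (S : Finset V) : ℝ :=
  2 ^ q * (1 + 2 ^ k * S.card / 2 ^ n)

/-- no level set is hit too often -/
def Good {k : ℕ} (n q : ℕ) (G : Fin k → V) (B : Finset V) : Prop :=
  ∀ j ∈ range (n + 1), ((msg G (lev B j)).card : ℝ) < thr n k q (lev B j)

theorem cov_good {n k q : ℕ} (hV : Fintype.card V = 2 ^ n) (G : Fin k → V) (B : Finset V)
    (hG : Good n q G B) (hB : 2 ^ n ≤ 2 ^ k * B.card) :
    (2 : ℝ) ^ n ≤ 5 * 2 ^ q * (cov G B).card := by
  have hBn : B.card ≤ 2 ^ n := by rw [← hV]; exact Finset.card_le_univ B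
  have hBlt : B.card < 2 ^ (n + 1) := by
    rw [pow_succ]
    have : 0 < 2 ^ n := by positivity
    omega
  have hB0 : 0 < B.card := by
    rcases Nat.eq_zero_or_pos B.card with h | h
    · rw [h] at hB
      have : 0 < 2 ^ n := by positivity
      omega
    · exact h
  -- the sum over messages
  have h1 : ∑ u, ff B (ev G u) ≤ B.card + ∑ j ∈ range (n + 1), 2 ^ j * (msg G (lev B j)).card := by
    have h2 : ∑ u, ff B (ev G u) = ff B (ev G 0) +
        ∑ u ∈ univ.erase (0 : Fin k → ZMod 2), ff B (ev G u) :=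
      (Finset.add_sum_erase _ _ (Finset.mem_univ _)).symm
    rw [h2, map_zero, ff_zero]
    apply Nat.add_le_add_left
    calc ∑ u ∈ univ.erase (0 : Fin k → ZMod 2), ff B (ev G u) ≤
          ∑ u ∈ univ.erase (0 : Fin k → ZMod 2), dy n (ff B (ev G u)) :=
          Finset.sum_le_sum fun u _ => le_dy (lt_of_le_of_lt (ff_le B _) hBlt)
      _ = ∑ j ∈ range (n + 1), ∑ u ∈ univ.erase (0 : Fin k → ZMod 2),
            (if 2 ^ j ≤ ff B (ev G u) then 2 ^ j else 0) := by
          unfold dy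
          rw [Finset.sum_comm]
      _ = ∑ j ∈ range (n + 1), 2 ^ j * (msg G (lev B j)).card := by
          refine Finset.sum_congr rfl fun j _ => ?_
          rw [← Finset.sum_filter, Finset.sum_const, smul_eq_mul, mul_comm]
          congr 2
          unfold msg lev
          ext u
          simp
      _ ≤ _ := le_rfl
  have h3 : ∑ j ∈ range (n + 1), (2 : ℝ) ^ j * (msg G (lev B j)).card ≤
      2 ^ q * (2 * B.card + 2 ^ k / 2 ^ n * (2 * (B.card : ℝ) ^ 2)) := by
    have h4 : ∀ j ∈ range (n + 1), (2 : ℝ) ^ j * (msg G (lev B j)).card ≤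
        2 ^ q * ((if 2 ^ j ≤ B.card then (2 : ℝ) ^ j else 0) +
          2 ^ k / 2 ^ n * (2 ^ j * (lev B j).card)) := by
      intro j hj
      by_cases hjB : 2 ^ j ≤ B.card
      · rw [if_pos hjB]
        have := (hG j hj).le
        unfold thr at this
        calc (2 : ℝ) ^ j * (msg G (lev B j)).card ≤
              2 ^ j * (2 ^ q * (1 + 2 ^ k * (lev B j).card / 2 ^ n)) :=
              mul_le_mul_of_nonneg_left this (by positivity)
          _ = _ := by ring
      · have hempty : msg G (lev B j) = ∅ := by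
          unfold msg
          rw [Finset.filter_eq_empty_iff]
          intro u _ hu
          have h5 := (Finset.mem_filter.1 hu.2).2
          exact hjB (h5.trans (ff_le B _))
        rw [hempty, Finset.card_empty, Nat.cast_zero, mul_zero]
        have : (0 : ℝ) ≤ (if 2 ^ j ≤ B.card then (2 : ℝ) ^ j else 0) := by
          split_ifs <;> positivity
        positivity
    have h6 : ∑ j ∈ range (n + 1), (if 2 ^ j ≤ B.card then (2 : ℝ) ^ j else 0) ≤ 2 * B.card := by
      have := dy_le n B.card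
      unfold dy at this
      have h7 : ((∑ j ∈ range (n + 1), if 2 ^ j ≤ B.card then 2 ^ j else 0 : ℕ) : ℝ) ≤
        ((2 * B.card : ℕ) : ℝ) := by exact_mod_cast this
      push_cast at h7
      exact h7
    have h8 : ∑ j ∈ range (n + 1), ((2 : ℝ) ^ j * (lev B j).card) ≤ 2 * (B.card : ℝ) ^ 2 := by
      have h9 : ∑ j ∈ range (n + 1), (2 ^ j * (lev B j).card) ≤ 2 * B.card ^ 2 := by
        calc ∑ j ∈ range (n + 1), (2 ^ j * (lev B j).card) =
              ∑ j ∈ range (n + 1), ∑ c : V, (if 2 ^ j ≤ ff B c then 2 ^ j else 0) := by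
              refine Finset.sum_congr rfl fun j _ => ?_
              rw [← Finset.sum_filter, Finset.sum_const, smul_eq_mul, mul_comm]
              rfl
          _ = ∑ c : V, dy n (ff B c) := by
              unfold dy
              rw [Finset.sum_comm]
          _ ≤ ∑ c : V, 2 * ff B c := Finset.sum_le_sum fun c _ => dy_le _ _
          _ = 2 * B.card ^ 2 := by rw [← Finset.mul_sum, sum_ff]
      exact_mod_cast h9
    calc ∑ j ∈ range (n + 1), (2 : ℝ) ^ j * (msg G (lev B j)).card ≤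
          ∑ j ∈ range (n + 1), 2 ^ q * ((if 2 ^ j ≤ B.card then (2 : ℝ) ^ j else 0) +
          2 ^ k / 2 ^ n * (2 ^ j * (lev B j).card)) := Finset.sum_le_sum h4
      _ = 2 ^ q * (∑ j ∈ range (n + 1), (if 2 ^ j ≤ B.card then (2 : ℝ) ^ j else 0) +
          2 ^ k / 2 ^ n * ∑ j ∈ range (n + 1), ((2 : ℝ) ^ j * (lev B j).card)) := by
          rw [← Finset.mul_sum, Finset.sum_add_distrib, ← Finset.mul_sum]
      _ ≤ _ := by
          apply mul_le_mul_of_nonneg_left _ (by positivity)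
          exact add_le_add h6 (mul_le_mul_of_nonneg_left h8 (by positivity))
  have h10 : ((∑ u, ff B (ev G u) : ℕ) : ℝ) ≤
      5 * 2 ^ q * (2 ^ k / 2 ^ n * (B.card : ℝ) ^ 2) := by
    have h11 : ((∑ u, ff B (ev G u) : ℕ) : ℝ) ≤ B.card +
        ∑ j ∈ range (n + 1), (2 : ℝ) ^ j * (msg G (lev B j)).card := by exact_mod_cast h1
    have h12 : (B.card : ℝ) ≤ 2 ^ k / 2 ^ n * (B.card : ℝ) ^ 2 := by
      have h13 : (2 : ℝ) ^ n ≤ 2 ^ k * B.card := by exact_mod_cast hB
      rw [div_mul_eq_mul_div, le_div_iff₀ (by positivity)]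
      have : (0 : ℝ) < B.card := by exact_mod_cast hB0
      nlinarith
    have h14 : (1 : ℝ) ≤ 2 ^ q := one_le_pow₀ (by norm_num)
    have hx : (0 : ℝ) ≤ 2 ^ k / 2 ^ n * (B.card : ℝ) ^ 2 := by positivity
    obtain ⟨z, hz⟩ : ∃ z : ℝ, z = 2 ^ k / 2 ^ n * (B.card : ℝ) ^ 2 := ⟨_, rfl⟩
    obtain ⟨b, hb⟩ : ∃ b : ℝ, b = (B.card : ℝ) := ⟨_, rfl⟩
    obtain ⟨Q, hQ⟩ : ∃ Q : ℝ, Q = (2 : ℝ) ^ q := ⟨_, rfl⟩
    have e1 : 2 ^ k / 2 ^ n * (2 * (B.card : ℝ) ^ 2) = 2 * z := by rw [hz]; ring
    rw [e1, ← hb, ← hQ] at h3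
    rw [← hz, ← hb] at h12
    rw [← hQ] at h14
    rw [← hb] at h11
    rw [← hz, ← hQ]
    rw [← hz] at hx
    have hb0 : 0 ≤ b := by rw [hb]; positivity
    have : Q * (2 * b + 2 * z) ≤ Q * (4 * z) := by
      apply mul_le_mul_of_nonneg_left _ (by linarith)
      linarith
    have h15 : b ≤ Q * z := by nlinarith
    nlinarith
  have h16 : ((2 : ℝ) ^ k * (B.card : ℝ) ^ 2) ≤
      (cov G B).card * ((∑ u, ff B (ev G u) : ℕ) : ℝ) := by
    exact_mod_cast cov_ge G B
  have hB0' : (0 : ℝ) < B.card := by exact_mod_cast hB0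
  have h17 : ((2 : ℝ) ^ k * (B.card : ℝ) ^ 2) * 2 ^ n ≤
      ((2 : ℝ) ^ k * (B.card : ℝ) ^ 2) * (5 * 2 ^ q * (cov G B).card) := by
    calc ((2 : ℝ) ^ k * (B.card : ℝ) ^ 2) * 2 ^ n ≤
          ((cov G B).card * (5 * 2 ^ q * (2 ^ k / 2 ^ n * (B.card : ℝ) ^ 2))) * 2 ^ n := by
          apply mul_le_mul_of_nonneg_right _ (by positivity)
          exact h16.trans (mul_le_mul_of_nonneg_left h10 (by positivity))
      _ = ((2 : ℝ) ^ k * (B.card : ℝ) ^ 2) * (5 * 2 ^ q * (cov G B).card) := by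
          field_simp
  exact le_of_mul_le_mul_left h17 (by positivity)

open Classical in
/-- few matrices are not good -/
theorem not_good {n k q : ℕ} (hV : Fintype.card V = 2 ^ n) (B : Finset V) :
    ((univ.filter (fun G : Fin k → V => ¬ Good n q G B)).card : ℝ) * (2 : ℝ) ^ (q * q) ≤
      (n + 1) * (2 ^ q * (2 : ℝ) ^ (n * k)) := by
  have h1 : (univ.filter (fun G : Fin k → V => ¬ Good n q G B)).card ≤
      ∑ j ∈ range (n + 1), (univ.filter
        (fun G : Fin k → V => thr n k q (lev B j) ≤ (msg G (lev B j)).card)).card := by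
    refine (Finset.card_le_card ?_).trans Finset.card_biUnion_le
    intro G hG
    rw [Finset.mem_filter] at hG
    unfold Good at hG
    push Not at hG
    obtain ⟨_, j, hj, hj2⟩ := hG
    exact Finset.mem_biUnion.2 ⟨j, hj, Finset.mem_filter.2 ⟨Finset.mem_univ _, hj2⟩⟩
  have h2 : ∀ j ∈ range (n + 1), ((univ.filter
      (fun G : Fin k → V => thr n k q (lev B j) ≤ (msg G (lev B j)).card)).card : ℝ) *
        (2 : ℝ) ^ (q * q) ≤ 2 ^ q * (2 : ℝ) ^ (n * k) := by
    intro j _
    obtain ⟨S, hS⟩ : ∃ S : Finset V, S = lev B j := ⟨_, rfl⟩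
    rw [← hS]
    have hT : (2 : ℝ) ^ q ≤ thr n k q S := by
      unfold thr
      have : (0 : ℝ) ≤ 2 ^ k * S.card / 2 ^ n := by positivity
      nlinarith [pow_pos (show (0 : ℝ) < 2 by norm_num) q]
    have h3 := bad_count (k := k) S (thr n k q S) q hT
    obtain ⟨N, hN⟩ : ∃ N : ℝ, N = ((univ.filter
      (fun G : Fin k → V => thr n k q S ≤ (msg G S).card)).card : ℝ) := ⟨_, rfl⟩
    rw [← hN] at h3 ⊢
    have hN0 : 0 ≤ N := by rw [hN]; positivity
    rw [hV] at h3
    push_cast at h3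
    obtain ⟨s, hs⟩ : ∃ s : ℝ, s = (S.card : ℝ) := ⟨_, rfl⟩
    have hs0 : 0 ≤ s := by rw [hs]; positivity
    have hthr : thr n k q S = 2 ^ q * (1 + 2 ^ k * s / 2 ^ n) := by
      unfold thr
      rw [hs]
    rw [hthr, ← hs] at h3
    -- multiply out
    have h4 : N * (2 ^ q * (1 + 2 ^ k * s / 2 ^ n) * 2 ^ n) ^ q ≤
        2 ^ q * ((2 ^ k * s) ^ q * (2 : ℝ) ^ (n * k)) := by
      calc N * (2 ^ q * (1 + 2 ^ k * s / 2 ^ n) * 2 ^ n) ^ q =
            2 ^ q * (N * (2 ^ q * (1 + 2 ^ k * s / 2 ^ n) / 2) ^ q * ((2 : ℝ) ^ n) ^ q) := by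
            rw [div_pow, mul_pow]
            field_simp
        _ ≤ 2 ^ q * (((2 : ℝ) ^ k) ^ q * (s ^ q * ((2 : ℝ) ^ n) ^ k)) :=
            mul_le_mul_of_nonneg_left h3 (by positivity)
        _ = _ := by
            rw [mul_pow (2 ^ k) s q, pow_mul]
            ring
    have h5 : 2 ^ q * (1 + 2 ^ k * s / 2 ^ n) * (2 : ℝ) ^ n = 2 ^ q * (2 ^ n + 2 ^ k * s) := by
      field_simp
    rw [h5, mul_pow, ← pow_mul] at h4
    have h6 : (0 : ℝ) < (2 ^ n + 2 ^ k * s) ^ q := by positivity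
    have h7 : (2 ^ k * s) ^ q ≤ ((2 : ℝ) ^ n + 2 ^ k * s) ^ q := by
      apply pow_le_pow_left₀ (by positivity)
      have : (0 : ℝ) < 2 ^ n := by positivity
      linarith
    have h8 : (2 ^ n + 2 ^ k * s) ^ q * (N * (2 : ℝ) ^ (q * q)) ≤
        (2 ^ n + 2 ^ k * s) ^ q * (2 ^ q * (2 : ℝ) ^ (n * k)) := by
      calc (2 ^ n + 2 ^ k * s) ^ q * (N * (2 : ℝ) ^ (q * q)) =
            N * ((2 : ℝ) ^ (q * q) * (2 ^ n + 2 ^ k * s) ^ q) := by ring
        _ ≤ 2 ^ q * ((2 ^ k * s) ^ q * (2 : ℝ) ^ (n * k)) := h4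
        _ ≤ 2 ^ q * (((2 : ℝ) ^ n + 2 ^ k * s) ^ q * (2 : ℝ) ^ (n * k)) := by
            apply mul_le_mul_of_nonneg_left _ (by positivity)
            exact mul_le_mul_of_nonneg_right h7 (by positivity)
        _ = _ := by ring
    exact le_of_mul_le_mul_left h8 h6
  have h9 : ((univ.filter (fun G : Fin k → V => ¬ Good n q G B)).card : ℝ) ≤
      ∑ j ∈ range (n + 1), ((univ.filter
        (fun G : Fin k → V => thr n k q (lev B j) ≤ (msg G (lev B j)).card)).card : ℝ) := by
    exact_mod_cast h1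
  calc ((univ.filter (fun G : Fin k → V => ¬ Good n q G B)).card : ℝ) * (2 : ℝ) ^ (q * q) ≤
        (∑ j ∈ range (n + 1), ((univ.filter
        (fun G : Fin k → V => thr n k q (lev B j) ≤ (msg G (lev B j)).card)).card : ℝ)) *
          (2 : ℝ) ^ (q * q) := mul_le_mul_of_nonneg_right h9 (by positivity)
    _ = ∑ j ∈ range (n + 1), ((univ.filter
        (fun G : Fin k → V => thr n k q (lev B j) ≤ (msg G (lev B j)).card)).card : ℝ) *
          (2 : ℝ) ^ (q * q) := by rw [Finset.sum_mul]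
    _ ≤ ∑ _j ∈ range (n + 1), 2 ^ q * (2 : ℝ) ^ (n * k) := Finset.sum_le_sum h2
    _ = _ := by
        rw [Finset.sum_const, Finset.card_range, nsmul_eq_mul]
        push_cast
        rfl

end Pool.Agent.U121.LC
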