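import Pool.Agent.U121.LC.Blow
import Pool.Agent.U121.LC.Cover

/-!
U121/LC (helper121, MP_0430e4_lc): the number of generator matrices of binary linear codes with
minimum distance `≥ d`, for dimensions beyond the Gilbert-Varshamov bound.
-/

set_option autoImplicit false

namespace Pool.Agent.U121.LC

open Finset

/-- Hamming ball -/
def ball (n t : ℕ) : Finset (Fin n → ZMod 2) := univ.filter (fun x => hammingNorm x ≤ t)

/-- words at distance at least `d` from the code -/
noncomputable def Unc {n k : ℕ} (G : Fin k → (Fin n → ZMod 2)) (d : ℕ) :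
    Finset (Fin n → ZMod 2) :=
  univ.filter (fun y => ∀ u, d ≤ hammingNorm (ev G u + y))

/-- generator matrices of codes with minimum distance at least `d` -/
noncomputable def PP (n k d : ℕ) : Finset (Fin k → (Fin n → ZMod 2)) :=
  univ.filter (fun G => ∀ u, u ≠ 0 → d ≤ hammingNorm (ev G u))

lemma cov_unc {n k : ℕ} (G : Fin k → (Fin n → ZMod 2)) (d t : ℕ) :
    ∀ x ∈ cov G (ball n t), ∀ y ∈ Unc G d, d - t ≤ hammingDist x y := by
  intro x hx y hy
  unfold cov XX at hx
  rw [Finset.mem_filter, Finset.card_pos] at hx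
  obtain ⟨u, hu⟩ := hx.2
  rw [Finset.mem_filter] at hu
  have h1 := hu.2
  unfold ball at h1
  rw [Finset.mem_filter] at h1
  unfold Unc at hy
  rw [Finset.mem_filter] at hy
  have h2 := hy.2 u
  have h3 : hammingNorm (ev G u + y) ≤ hammingNorm (ev G u + x) + hammingDist x y := by
    rw [← hammingDist_zero_right (ev G u + y), ← hammingDist_zero_right (ev G u + x)]
    have h4 := hammingDist_triangle (ev G u + y) (ev G u + x) 0
    have h5 : hammingDist (ev G u + y) (ev G u + x) = hammingDist x y := by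
      rw [hammingDist_comm, hammingDist_eq_hammingNorm, hammingDist_eq_hammingNorm]
      congr 1
      abel
    rw [h5] at h4
    omega
  have h6 := h1.2
  omega

/-- the bound for the words at distance at least `d` -/
noncomputable def MM (n q D : ℕ) (θ : ℝ) : ℝ :=
  5 * 2 ^ q * ((2 + θ + 1 / θ) / 4) ^ n / θ ^ D

lemma unc_le {n k q t d : ℕ} {θ : ℝ} (hθ : 1 ≤ θ) (G : Fin k → (Fin n → ZMod 2))
    (hG : Good n q G (ball n t)) (hB : 2 ^ n ≤ 2 ^ k * (ball n t).card) :
    ((Unc G d).card : ℝ) ≤ MM n q (d - t) θ * 2 ^ n := by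
  have hθ0 : 0 < θ := by linarith
  have hV : Fintype.card (Fin n → ZMod 2) = 2 ^ n := by
    rw [Fintype.card_fun, ZMod.card, Fintype.card_fin]
  have h1 := cov_good hV G (ball n t) hG hB
  have h2 := blow hθ n (d - t) (cov G (ball n t)) (Unc G d) (cov_unc G d t)
  obtain ⟨c, hc⟩ : ∃ c : ℝ, c = ((cov G (ball n t)).card : ℝ) := ⟨_, rfl⟩
  obtain ⟨w, hw⟩ : ∃ w : ℝ, w = ((Unc G d).card : ℝ) := ⟨_, rfl⟩
  rw [← hc] at h1 h2
  rw [← hw] at h2 ⊢
  have hw0 : 0 ≤ w := by rw [hw]; positivity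
  unfold MM
  have h3 : w * (2 : ℝ) ^ n * θ ^ (d - t) ≤ 5 * 2 ^ q * (2 + θ + 1 / θ) ^ n := by
    calc w * (2 : ℝ) ^ n * θ ^ (d - t) ≤ w * (5 * 2 ^ q * c) * θ ^ (d - t) := by
          apply mul_le_mul_of_nonneg_right _ (by positivity)
          exact mul_le_mul_of_nonneg_left h1 hw0
      _ = 5 * 2 ^ q * (c * w * θ ^ (d - t)) := by ring
      _ ≤ _ := mul_le_mul_of_nonneg_left h2 (by positivity)
  rw [div_pow, div_mul_eq_mul_div, le_div_iff₀ (by positivity)]
  have h4 : (4 : ℝ) ^ n = 2 ^ n * 2 ^ n := by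
    rw [← mul_pow]; norm_num
  have h5 : 5 * 2 ^ q * ((2 + θ + 1 / θ) ^ n / 4 ^ n) * (2 : ℝ) ^ n =
      5 * 2 ^ q * (2 + θ + 1 / θ) ^ n / 2 ^ n := by
    rw [h4]
    field_simp
  rw [h5, le_div_iff₀ (by positivity)]
  calc w * θ ^ (d - t) * (2 : ℝ) ^ n = w * (2 : ℝ) ^ n * θ ^ (d - t) := by ring
    _ ≤ _ := h3

open Classical in
lemma split {n k₁ k₂ q t d : ℕ} :
    (PP n (k₁ + k₂) d).card ≤
      ∑ G : Fin k₁ → (Fin n → ZMod 2),
        (if Good n q G (ball n t) then (Unc G d).card ^ k₂ else (2 ^ n) ^ k₂) := by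
  have hcard : ∀ G : Fin k₁ → (Fin n → ZMod 2),
      (if Good n q G (ball n t) then (Unc G d).card ^ k₂ else (2 ^ n) ^ k₂) =
      (if Good n q G (ball n t) then Fintype.piFinset (fun _ : Fin k₂ => Unc G d)
        else univ : Finset (Fin k₂ → (Fin n → ZMod 2))).card := by
    intro G
    split_ifs with h
    · rw [Fintype.card_piFinset, Finset.prod_const, Finset.card_univ, Fintype.card_fin]
    · rw [Finset.card_univ, Fintype.card_fun, Fintype.card_fun, ZMod.card, Fintype.card_fin,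
        Fintype.card_fin]
  rw [Finset.sum_congr rfl (fun G _ => hcard G), ← Finset.card_sigma]
  refine Finset.card_le_card_of_injOn
    (fun G => ⟨fun i => G (Fin.castAdd k₂ i), fun j => G (Fin.natAdd k₁ j)⟩) ?_ ?_
  · intro G hG
    rw [Finset.mem_coe] at hG ⊢
    unfold PP at hG
    rw [Finset.mem_filter] at hG
    rw [Finset.mem_sigma]
    refine ⟨Finset.mem_univ _, ?_⟩
    show (fun j => G (Fin.natAdd k₁ j)) ∈ (if Good n q (fun i => G (Fin.castAdd k₂ i)) (ball n t)
      then Fintype.piFinset (fun _ : Fin k₂ => Unc (fun i => G (Fin.castAdd k₂ i)) d)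
        else univ)
    split_ifs with h
    · rw [Fintype.mem_piFinset]
      intro j
      unfold Unc
      rw [Finset.mem_filter]
      refine ⟨Finset.mem_univ _, fun u => ?_⟩
      have h1 := hG.2 (Fin.append u (Pi.single j 1)) (by
        intro h2
        have h3 := congrFun h2 (Fin.natAdd k₁ j)
        rw [Fin.append_right, Pi.single_eq_same, Pi.zero_apply] at h3
        exact one_ne_zero h3)
      have h4 : ev G (Fin.append u (Pi.single j 1)) =
          ev (fun i => G (Fin.castAdd k₂ i)) u + G (Fin.natAdd k₁ j) := by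
        rw [ev_apply, ev_apply, Fin.sum_univ_add]
        congr 1
        · refine Finset.sum_congr rfl fun i _ => ?_
          rw [Fin.append_left]
        · rw [Finset.sum_eq_single j]
          · rw [Fin.append_right, Pi.single_eq_same, one_smul]
          · intro l _ hl
            rw [Fin.append_right, Pi.single_eq_of_ne hl, zero_smul]
          · intro h
            exact absurd (Finset.mem_univ _) h
      rw [h4] at h1
      exact h1
    · exact Finset.mem_univ _
  · intro G _ G' _ hGG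
    have e1 : (fun i => G (Fin.castAdd k₂ i)) = (fun i => G' (Fin.castAdd k₂ i)) :=
      congrArg Sigma.fst hGG
    have e2 : (fun j => G (Fin.natAdd k₁ j)) = (fun j => G' (Fin.natAdd k₁ j)) := by
      have := hGG
      simp only [Sigma.mk.injEq] at this
      exact eq_of_heq this.2
    funext i
    refine Fin.addCases (fun i => ?_) (fun j => ?_) i
    · exact congrFun e1 i
    · exact congrFun e2 j

theorem PP_le {n k₁ k₂ q t d : ℕ} {θ : ℝ} (hθ : 1 ≤ θ)
    (hB : 2 ^ n ≤ 2 ^ k₁ * (ball n t).card) :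
    ((PP n (k₁ + k₂) d).card : ℝ) ≤
      ((n + 1) * 2 ^ q / 2 ^ (q * q) + MM n q (d - t) θ ^ k₂) * 2 ^ (n * (k₁ + k₂)) := by
  classical
  have hV : Fintype.card (Fin n → ZMod 2) = 2 ^ n := by
    rw [Fintype.card_fun, ZMod.card, Fintype.card_fin]
  have h1 : ((PP n (k₁ + k₂) d).card : ℝ) ≤
      ∑ G : Fin k₁ → (Fin n → ZMod 2),
        (if Good n q G (ball n t) then ((Unc G d).card : ℝ) ^ k₂ else ((2 : ℝ) ^ n) ^ k₂) := by
    have := split (n := n) (k₁ := k₁) (k₂ := k₂) (q := q) (t := t) (d := d)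
    exact_mod_cast this
  have hθ0 : 0 < θ := by linarith
  have hM0 : 0 ≤ MM n q (d - t) θ := by
    unfold MM
    positivity
  have h2 : ∑ G : Fin k₁ → (Fin n → ZMod 2),
        (if Good n q G (ball n t) then ((Unc G d).card : ℝ) ^ k₂ else ((2 : ℝ) ^ n) ^ k₂) ≤
      ∑ G : Fin k₁ → (Fin n → ZMod 2), ((MM n q (d - t) θ * 2 ^ n) ^ k₂ +
        (if ¬ Good n q G (ball n t) then ((2 : ℝ) ^ n) ^ k₂ else 0)) := by
    refine Finset.sum_le_sum fun G _ => ?_
    by_cases h : Good n q G (ball n t)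
    · rw [if_pos h, if_neg (not_not.2 h), add_zero]
      exact pow_le_pow_left₀ (by positivity) (unc_le hθ G h hB) k₂
    · rw [if_neg h, if_pos h]
      have : (0 : ℝ) ≤ (MM n q (d - t) θ * 2 ^ n) ^ k₂ := by positivity
      linarith
  refine h1.trans (h2.trans ?_)
  rw [Finset.sum_add_distrib, Finset.sum_const, nsmul_eq_mul, ← Finset.sum_filter,
    Finset.sum_const, nsmul_eq_mul]
  have h3 : ((Finset.univ : Finset (Fin k₁ → (Fin n → ZMod 2))).card : ℝ) = 2 ^ (n * k₁) := by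
    rw [Finset.card_univ, Fintype.card_fun, hV, Fintype.card_fin]
    push_cast
    rw [pow_mul]
  rw [h3]
  have h4 := not_good (k := k₁) (q := q) hV (ball n t)
  obtain ⟨N, hN⟩ : ∃ N : ℝ, N = ((univ.filter
    (fun G : Fin k₁ → (Fin n → ZMod 2) => ¬ Good n q G (ball n t))).card : ℝ) := ⟨_, rfl⟩
  rw [← hN] at h4 ⊢
  have h5 : N ≤ (n + 1) * 2 ^ q / 2 ^ (q * q) * 2 ^ (n * k₁) := by
    rw [div_mul_eq_mul_div, le_div_iff₀ (by positivity)]
    calc N * (2 : ℝ) ^ (q * q) ≤ (n + 1) * (2 ^ q * (2 : ℝ) ^ (n * k₁)) := h4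
      _ = _ := by ring
  have h6 : (2 : ℝ) ^ (n * (k₁ + k₂)) = 2 ^ (n * k₁) * (2 ^ n) ^ k₂ := by
    rw [mul_add, pow_add, pow_mul 2 n k₂]
  rw [h6]
  calc (2 : ℝ) ^ (n * k₁) * (MM n q (d - t) θ * 2 ^ n) ^ k₂ + N * ((2 : ℝ) ^ n) ^ k₂ ≤
        (2 : ℝ) ^ (n * k₁) * (MM n q (d - t) θ * 2 ^ n) ^ k₂ +
          ((n + 1) * 2 ^ q / 2 ^ (q * q) * 2 ^ (n * k₁)) * ((2 : ℝ) ^ n) ^ k₂ := by
        have := mul_le_mul_of_nonneg_right h5 (show (0 : ℝ) ≤ ((2 : ℝ) ^ n) ^ k₂ by positivity)
        linarith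
    _ = _ := by
        rw [mul_pow]
        ring

end Pool.Agent.U121.LC
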