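import Pool.Agent.U121.LC.Radius
import Pool.Agent.U121.RS.Upper

/-!
U121/LC (helper121, MP_0430e4_lc): binary linear codes beyond the Gilbert-Varshamov bound are
rare at the scale `2 ^ (-c n²)`.
-/

set_option autoImplicit false

namespace Pool.Agent.U121.LC

open Finset Filter
open Pool.Agent.Results.MP_0430e4_lc.ConstantWeightCriterion (H H_cont H_le_one)
open Pool.Agent.U121.RS (choose_low ev_ge two_rpow_pos)

lemma choose_le_ball (n t : ℕ) : n.choose t ≤ (ball n t).card := by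
  classical
  have h1 : ((univ : Finset (Fin n)).powersetCard t).card = n.choose t := by
    rw [Finset.card_powersetCard, Finset.card_univ, Fintype.card_fin]
  rw [← h1]
  refine Finset.card_le_card_of_injOn (fun S => fun i => if i ∈ S then 1 else 0) ?_ ?_
  · intro S hS
    rw [Finset.mem_coe, Finset.mem_powersetCard] at hS
    unfold ball
    rw [Finset.mem_coe, Finset.mem_filter]
    refine ⟨Finset.mem_univ _, ?_⟩
    unfold hammingNorm
    rw [← hS.2]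
    apply Finset.card_le_card
    intro i hi
    rw [Finset.mem_filter] at hi
    by_contra hc
    exact hi.2 (if_neg hc)
  · intro S _ S' _ h
    ext i
    have h1 := congrFun h i
    by_cases a : i ∈ S <;> by_cases b : i ∈ S' <;> simp_all

/-- the bound for the uncovered part -/
lemma MM_le {s : ℝ} (hs : 0 < s) (hs1 : s ≤ 1) {n q D : ℕ} (hq : (q : ℝ) ≤ s ^ 2 / 8 * n)
    (hD : s * n ≤ D) (h5 : (5 : ℝ) ≤ Real.exp (s ^ 2 / 16 * n)) :
    MM n q D (1 + s) ≤ Real.exp (-(s ^ 2 / 16 * n)) := by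
  unfold MM
  have hn0 : (0 : ℝ) ≤ n := Nat.cast_nonneg n
  have h1 : ((2 + (1 + s) + 1 / (1 + s)) / 4) ≤ Real.exp (s ^ 2 / 4) := by
    have h2 : ((2 + (1 + s) + 1 / (1 + s)) / 4) ≤ s ^ 2 / 4 + 1 := by
      have h3 : 1 / (1 + s) ≤ 1 - s + s ^ 2 := by
        rw [div_le_iff₀ (by linarith)]
        nlinarith [pow_pos hs 3]
      nlinarith
    exact h2.trans (Real.add_one_le_exp _)
  have h2 : Real.exp (s / 2) ≤ 1 + s := by
    have h3 : 1 - s / 2 ≤ Real.exp (-(s / 2)) := by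
      have := Real.add_one_le_exp (-(s / 2))
      linarith
    have h4 : Real.exp (s / 2) * Real.exp (-(s / 2)) = 1 := by
      rw [← Real.exp_add]
      simp
    have h6 : 0 < Real.exp (s / 2) := Real.exp_pos _
    have h7 : Real.exp (s / 2) * (1 - s / 2) ≤ 1 := by
      have := mul_le_mul_of_nonneg_left h3 h6.le
      linarith
    have h8 : 1 ≤ (1 + s) * (1 - s / 2) := by nlinarith
    have h9 : Real.exp (s / 2) * (1 - s / 2) ≤ (1 + s) * (1 - s / 2) := h7.trans h8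
    exact le_of_mul_le_mul_right h9 (by linarith)
  have h3 : Real.exp (s ^ 2 / 2 * n) ≤ (1 + s) ^ D := by
    calc Real.exp (s ^ 2 / 2 * n) ≤ Real.exp (D * (s / 2)) := by
          apply Real.exp_le_exp.2
          nlinarith
      _ = Real.exp (s / 2) ^ D := by rw [← Real.exp_nat_mul]
      _ ≤ _ := pow_le_pow_left₀ (Real.exp_pos _).le h2 D
  have h4 : (2 : ℝ) ^ q ≤ Real.exp (s ^ 2 / 8 * n) := by
    have h6 : (2 : ℝ) ≤ Real.exp 1 := by
      have := Real.add_one_le_exp (1 : ℝ)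
      linarith
    calc (2 : ℝ) ^ q ≤ Real.exp 1 ^ q := pow_le_pow_left₀ (by norm_num) h6 q
      _ = Real.exp (q * 1) := by rw [← Real.exp_nat_mul]
      _ ≤ _ := by
        apply Real.exp_le_exp.2
        linarith
  have h6 : ((2 + (1 + s) + 1 / (1 + s)) / 4) ^ n ≤ Real.exp (s ^ 2 / 4 * n) := by
    calc ((2 + (1 + s) + 1 / (1 + s)) / 4) ^ n ≤ Real.exp (s ^ 2 / 4) ^ n :=
          pow_le_pow_left₀ (by positivity) h1 n
      _ = Real.exp (n * (s ^ 2 / 4)) := by rw [← Real.exp_nat_mul]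
      _ = _ := by rw [mul_comm]
  rw [div_le_iff₀ (by positivity)]
  calc 5 * 2 ^ q * ((2 + (1 + s) + 1 / (1 + s)) / 4) ^ n ≤
        Real.exp (s ^ 2 / 16 * n) * Real.exp (s ^ 2 / 8 * n) * Real.exp (s ^ 2 / 4 * n) := by
        apply mul_le_mul _ h6 (by positivity) (by positivity)
        exact mul_le_mul h5 h4 (by positivity) (Real.exp_pos _).le
    _ = Real.exp (-(s ^ 2 / 16 * n)) * Real.exp (s ^ 2 / 2 * n) := by
        rw [← Real.exp_add, ← Real.exp_add, ← Real.exp_add]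
        congr 1
        ring
    _ ≤ _ := mul_le_mul_of_nonneg_left h3 (Real.exp_pos _).le

lemma rpow_of_exp {x : ℝ} (hx : 0 ≤ x) : Real.exp (-x) ≤ (2 : ℝ) ^ (-x) := by
  rw [Real.rpow_def_of_pos (by norm_num)]
  apply Real.exp_le_exp.2
  have h1 : Real.log 2 ≤ 1 := by
    have := Real.log_two_lt_d9
    linarith
  nlinarith

/-- **Linear codes beyond the Gilbert-Varshamov bound are rare.** -/
theorem rare {δ η : ℝ} (h0 : 0 < δ) (h1 : δ < 1 / 2) (hη : 0 < η) :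
    ∃ c : ℝ, 0 < c ∧ ∀ᶠ n : ℕ in atTop, ∀ k : ℕ, k ≤ n → (1 - H δ + η) * n ≤ k →
      (numRad n k (δ * n) : ℝ) ≤ (2 : ℝ) ^ (-(c * (n : ℝ) ^ 2)) * numCodes n k ∧
      (numDist n k (δ * n) : ℝ) ≤ (2 : ℝ) ^ (-(c * (n : ℝ) ^ 2)) * numCodes n k := by
  -- the smaller radius
  obtain ⟨ρ, hρ, hball⟩ := Metric.eventually_nhds_iff.1
    ((H_cont.tendsto δ).eventually (lt_mem_nhds (show H δ - η / 8 < H δ by linarith)))
  obtain ⟨s, hs⟩ : ∃ s : ℝ, s = min (ρ / 2) (δ / 2) := ⟨_, rfl⟩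
  have hs0 : 0 < s := by rw [hs]; exact lt_min (by positivity) (by positivity)
  have hsρ : s ≤ ρ / 2 := by rw [hs]; exact min_le_left _ _
  have hsδ : s ≤ δ / 2 := by rw [hs]; exact min_le_right _ _
  have hHδ' : H δ - η / 8 < H (δ - s) := by
    apply hball
    rw [Real.dist_eq, show δ - s - δ = -s by ring, abs_neg, abs_of_pos hs0]
    linarith
  obtain ⟨η₁, hη₁, ev1⟩ := choose_low (x := δ - s) (by linarith) (by linarith)
    (by positivity : 0 < η / 8)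
  obtain ⟨ε, hε⟩ : ∃ ε : ℝ, ε = s ^ 2 / 8 := ⟨_, rfl⟩
  have hε0 : 0 < ε := by rw [hε]; positivity
  obtain ⟨c', hc'⟩ : ∃ c' : ℝ, c' = min (ε ^ 2 / 16) (s ^ 2 * η / 128) := ⟨_, rfl⟩
  have hc0 : 0 < c' := by rw [hc']; exact lt_min (by positivity) (by positivity)
  refine ⟨c' / 2, by positivity, ?_⟩
  filter_upwards [ev1, ev_ge (1 / η₁), ev_ge (4 / η), ev_ge (5 * 16 / s ^ 2), ev_ge (4 / ε),
    ev_ge (16 / ε ^ 2), ev_ge (6 / c'), ev_ge (128 / (s ^ 2 * η)),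
    eventually_ge_atTop 1] with n g1 g2 g3 g4 g5 g6 g7 g9 g8 k hkn hk
  have hnR : (1 : ℝ) ≤ n := by exact_mod_cast g8
  have hn0 : (0 : ℝ) < n := by linarith
  rw [div_le_iff₀ hη₁] at g2
  rw [div_le_iff₀ hη] at g3
  rw [div_le_iff₀ (by positivity)] at g4
  rw [div_le_iff₀ hε0] at g5
  rw [div_le_iff₀ (by positivity)] at g6
  rw [div_le_iff₀ hc0] at g7
  rw [div_le_iff₀ (by positivity)] at g9
  have hH1 := H_le_one δ
  -- parameters
  obtain ⟨t, ht⟩ : ∃ t : ℕ, t = ⌊(δ - s) * n⌋₊ := ⟨_, rfl⟩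
  have hδs : 0 ≤ (δ - s) * n := mul_nonneg (by linarith) hn0.le
  have ht1 : (t : ℝ) ≤ (δ - s) * n := by rw [ht]; exact Nat.floor_le hδs
  have ht2 : (δ - s) * n < t + 1 := by rw [ht]; exact Nat.lt_floor_add_one _
  obtain ⟨k₁, hk₁⟩ : ∃ k₁ : ℕ, k₁ = ⌈(1 - H δ + η / 2) * n⌉₊ := ⟨_, rfl⟩
  have hk1a : (1 - H δ + η / 2) * n ≤ k₁ := by rw [hk₁]; exact Nat.le_ceil _
  have hk1b : (k₁ : ℝ) < (1 - H δ + η / 2) * n + 1 := by
    rw [hk₁]
    exact Nat.ceil_lt_add_one (by apply mul_nonneg _ hn0.le; linarith)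
  have hk1k : k₁ ≤ k := by
    have h2 : (k₁ : ℝ) < k + 1 := by nlinarith
    have h3 : k₁ < k + 1 := by exact_mod_cast h2
    omega
  obtain ⟨k₂, hk₂⟩ : ∃ k₂ : ℕ, k = k₁ + k₂ := ⟨k - k₁, by omega⟩
  have hk2 : η / 4 * n ≤ k₂ := by
    have h2 : (k : ℝ) = k₁ + k₂ := by rw [hk₂]; push_cast; rfl
    rw [h2] at hk
    nlinarith
  obtain ⟨d, hd⟩ : ∃ d : ℕ, d = ⌈δ * n⌉₊ := ⟨_, rfl⟩
  have hd1 : δ * n ≤ d := by rw [hd]; exact Nat.le_ceil _
  have hd2 : (d : ℝ) < δ * n + 1 := by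
    rw [hd]
    exact Nat.ceil_lt_add_one (by positivity)
  obtain ⟨q, hq⟩ : ∃ q : ℕ, q = ⌊ε * n⌋₊ := ⟨_, rfl⟩
  have hq1 : (q : ℝ) ≤ ε * n := by rw [hq]; exact Nat.floor_le (by positivity)
  have hq2 : ε * n < q + 1 := by rw [hq]; exact Nat.lt_floor_add_one _
  have hD : s * n ≤ ((d - t : ℕ) : ℝ) := by
    have h2 : t ≤ d := by
      have : (t : ℝ) ≤ d := by nlinarith
      exact_mod_cast this
    rw [Nat.cast_sub h2]
    nlinarith
  -- the ball
  have hB : 2 ^ n ≤ 2 ^ k₁ * (ball n t).card := by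
    have h2 : (2 : ℝ) ^ ((H (δ - s) - η / 8) * n) ≤ n.choose t := by
      apply g1
      rw [abs_le]
      constructor <;> nlinarith
    have h3 : (n.choose t : ℝ) ≤ (ball n t).card := by exact_mod_cast choose_le_ball n t
    have h4 : (2 : ℝ) ^ n ≤ 2 ^ k₁ * (ball n t).card := by
      calc (2 : ℝ) ^ n = (2 : ℝ) ^ (n : ℝ) := by rw [Real.rpow_natCast]
        _ ≤ (2 : ℝ) ^ ((k₁ : ℝ) + (H (δ - s) - η / 8) * n) := by
            apply Real.rpow_le_rpow_of_exponent_le (by norm_num)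
            nlinarith
        _ = (2 : ℝ) ^ k₁ * (2 : ℝ) ^ ((H (δ - s) - η / 8) * n) := by
            rw [Real.rpow_add (by norm_num), Real.rpow_natCast]
        _ ≤ _ := mul_le_mul_of_nonneg_left (h2.trans h3) (by positivity)
    exact_mod_cast h4
  have hP := PP_le (n := n) (k₁ := k₁) (k₂ := k₂) (q := q) (t := t) (d := d) (θ := 1 + s)
    (by linarith) hB
  rw [← hk₂] at hP
  -- first term
  have hA : ((n : ℝ) + 1) * 2 ^ q / 2 ^ (q * q) ≤ (2 : ℝ) ^ (-(c' * (n : ℝ) ^ 2)) := by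
    rw [div_le_iff₀ (by positivity)]
    have h2 : ((n : ℝ) + 1) ≤ (2 : ℝ) ^ (n : ℝ) := by
      rw [Real.rpow_natCast]
      exact_mod_cast Nat.lt_two_pow_self
    have hcc : c' ≤ ε ^ 2 / 16 := by rw [hc']; exact min_le_left _ _
    calc ((n : ℝ) + 1) * 2 ^ q ≤ (2 : ℝ) ^ (n : ℝ) * (2 : ℝ) ^ (q : ℝ) := by
          rw [Real.rpow_natCast 2 q]
          exact mul_le_mul_of_nonneg_right h2 (by positivity)
      _ = (2 : ℝ) ^ ((n : ℝ) + q) := by rw [Real.rpow_add (by norm_num)]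
      _ ≤ (2 : ℝ) ^ (-(c' * (n : ℝ) ^ 2) + (q : ℝ) * q) := by
          apply Real.rpow_le_rpow_of_exponent_le (by norm_num)
          -- n + q + c' n² ≤ q²
          have h3 : ε * n / 2 ≤ q := by nlinarith
          have h4 : (2 : ℝ) ≤ q := by nlinarith
          have h5 : (q : ℝ) ≤ q * q / 2 := by nlinarith
          have h6 : ε ^ 2 * (n : ℝ) ^ 2 / 8 ≤ (q : ℝ) * q / 2 := by
            have : (ε * n / 2) * (ε * n / 2) ≤ (q : ℝ) * q :=
              mul_le_mul h3 h3 (by positivity) (by positivity)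
            nlinarith
          have h7 : c' * (n : ℝ) ^ 2 ≤ ε ^ 2 / 16 * (n : ℝ) ^ 2 :=
            mul_le_mul_of_nonneg_right hcc (by positivity)
          have h8 : (n : ℝ) ≤ ε ^ 2 / 16 * (n : ℝ) ^ 2 := by nlinarith
          nlinarith
      _ = (2 : ℝ) ^ (-(c' * (n : ℝ) ^ 2)) * 2 ^ (q * q) := by
          rw [Real.rpow_add (by norm_num), ← Real.rpow_natCast 2 (q * q)]
          push_cast
          rfl
  -- second term
  have hM := MM_le hs0 (by linarith) (q := q) (D := d - t) (n := n) (by rw [← hε]; exact hq1) hD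
    (by
      have h2 : (5 : ℝ) ≤ s ^ 2 / 16 * n := by nlinarith
      have h3 := Real.add_one_le_exp (s ^ 2 / 16 * n)
      linarith)
  have hM0 : 0 ≤ MM n q (d - t) (1 + s) := by
    unfold MM
    positivity
  have hB2 : 2 ^ n * MM n q (d - t) (1 + s) ^ k₂ ≤ (2 : ℝ) ^ (-(c' * (n : ℝ) ^ 2)) := by
    have hcc : c' ≤ s ^ 2 * η / 128 := by rw [hc']; exact min_le_right _ _
    have he : (2 : ℝ) ^ n ≤ Real.exp n := by
      have h6 : (2 : ℝ) ≤ Real.exp 1 := by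
        have := Real.add_one_le_exp (1 : ℝ)
        linarith
      calc (2 : ℝ) ^ n ≤ Real.exp 1 ^ n := pow_le_pow_left₀ (by norm_num) h6 n
        _ = Real.exp n := by rw [← Real.exp_nat_mul, mul_one]
    calc 2 ^ n * MM n q (d - t) (1 + s) ^ k₂ ≤ Real.exp n * Real.exp (-(s ^ 2 / 16 * n)) ^ k₂ :=
          mul_le_mul he (pow_le_pow_left₀ hM0 hM k₂) (pow_nonneg hM0 _) (Real.exp_pos _).le
      _ = Real.exp (n + k₂ * (-(s ^ 2 / 16 * n))) := by rw [← Real.exp_nat_mul, ← Real.exp_add]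
      _ ≤ Real.exp (-(c' * (n : ℝ) ^ 2)) := by
          apply Real.exp_le_exp.2
          have h2 : c' * (n : ℝ) ^ 2 ≤ s ^ 2 * η / 128 * (n : ℝ) ^ 2 :=
            mul_le_mul_of_nonneg_right hcc (by positivity)
          have h3 : η / 4 * n * (s ^ 2 / 16 * n) ≤ k₂ * (s ^ 2 / 16 * n) :=
            mul_le_mul_of_nonneg_right hk2 (by positivity)
          have h4 : (n : ℝ) ≤ s ^ 2 * η / 128 * (n : ℝ) ^ 2 := by
            have := mul_le_mul_of_nonneg_right g9 hn0.le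
            linarith
          have h5 : η / 4 * n * (s ^ 2 / 16 * n) = 2 * (s ^ 2 * η / 128 * (n : ℝ) ^ 2) := by ring
          linarith
      _ ≤ _ := rpow_of_exp (by positivity)
  have hB3 : MM n q (d - t) (1 + s) ^ k₂ ≤ 2 ^ n * MM n q (d - t) (1 + s) ^ k₂ := by
    have h2 : (1 : ℝ) ≤ 2 ^ n := one_le_pow₀ (by norm_num)
    have h3 := pow_nonneg hM0 k₂
    nlinarith
  have hP2 : ((PP n k d).card : ℝ) ≤ (2 * (2 : ℝ) ^ (-(c' * (n : ℝ) ^ 2))) * 2 ^ (n * k) := by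
    refine hP.trans (mul_le_mul_of_nonneg_right ?_ (by positivity))
    linarith
  have hC := CC_le (n := n) (k₁ := k₁) (k₂ := k₂) (q := q) (t := t) (d := d) (θ := 1 + s)
    (by linarith) hB
  rw [← hk₂] at hC
  have hC2 : ((CC n k d).card : ℝ) ≤ (2 * (2 : ℝ) ^ (-(c' * (n : ℝ) ^ 2))) * 2 ^ (n * k) := by
    refine hC.trans (mul_le_mul_of_nonneg_right ?_ (by positivity))
    linarith
  have hfin := numDist_le hkn hd2 (p := 2 * (2 : ℝ) ^ (-(c' * (n : ℝ) ^ 2))) (by positivity) hP2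
  have hfin2 := numRad_le hkn hd2 (p := 2 * (2 : ℝ) ^ (-(c' * (n : ℝ) ^ 2))) (by positivity) hC2
  suffices hsuf : 4 * (2 * (2 : ℝ) ^ (-(c' * (n : ℝ) ^ 2))) ≤
      (2 : ℝ) ^ (-(c' / 2 * (n : ℝ) ^ 2)) from
    ⟨hfin2.trans (mul_le_mul_of_nonneg_right hsuf (by positivity)),
      hfin.trans (mul_le_mul_of_nonneg_right hsuf (by positivity))⟩
  calc 4 * (2 * (2 : ℝ) ^ (-(c' * (n : ℝ) ^ 2))) = (2 : ℝ) ^ (3 : ℝ) *
        (2 : ℝ) ^ (-(c' * (n : ℝ) ^ 2)) := by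
        rw [show (2 : ℝ) ^ (3 : ℝ) = 8 by
          rw [show (3 : ℝ) = ((3 : ℕ) : ℝ) by norm_num, Real.rpow_natCast]; norm_num]
        ring
    _ = (2 : ℝ) ^ (3 + (-(c' * (n : ℝ) ^ 2))) := by rw [Real.rpow_add (by norm_num)]
    _ ≤ (2 : ℝ) ^ (-(c' / 2 * (n : ℝ) ^ 2)) := by
        apply Real.rpow_le_rpow_of_exponent_le (by norm_num)
        nlinarith

end Pool.Agent.U121.LC
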