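import Pool.Agent.U121.LC.Sub

/-!
U121/LC (helper121, MP_0430e4_lc): codes with large covering radius.
-/

set_option autoImplicit false
set_option linter.style.haveILetI false

namespace Pool.Agent.U121.LC

open Finset

/-- generator matrices of codes with a word at distance at least `d` from the code -/
noncomputable def CC (n k d : ℕ) : Finset (Fin k → (Fin n → ZMod 2)) :=
  univ.filter (fun G => ∃ x, ∀ u, d ≤ hammingNorm (ev G u + x))

open Classical in
lemma split' {n k₁ k₂ q t d : ℕ} :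
    (CC n (k₁ + k₂) d).card ≤
      ∑ G : Fin k₁ → (Fin n → ZMod 2),
        (if Good n q G (ball n t) then 2 ^ n * (Unc G d).card ^ k₂ else (2 ^ n) ^ k₂) := by
  obtain ⟨F, hF⟩ : ∃ F : (Fin k₁ → (Fin n → ZMod 2)) → Finset (Fin k₂ → (Fin n → ZMod 2)),
    F = fun G => if Good n q G (ball n t) then
      univ.biUnion (fun x : Fin n → ZMod 2 =>
        Fintype.piFinset (fun _ : Fin k₂ => univ.filter (fun y => y + x ∈ Unc G d)))
        else univ := ⟨_, rfl⟩
  have hcard : ∀ G : Fin k₁ → (Fin n → ZMod 2), (F G).card ≤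
      (if Good n q G (ball n t) then 2 ^ n * (Unc G d).card ^ k₂ else (2 ^ n) ^ k₂) := by
    intro G
    rw [hF]
    show (if Good n q G (ball n t) then
      univ.biUnion (fun x : Fin n → ZMod 2 =>
        Fintype.piFinset (fun _ : Fin k₂ => univ.filter (fun y => y + x ∈ Unc G d)))
        else univ).card ≤ _
    split_ifs with h
    · refine Finset.card_biUnion_le.trans ?_
      have h1 : ∀ x : Fin n → ZMod 2,
          (univ.filter (fun y => y + x ∈ Unc G d)).card ≤ (Unc G d).card := by
        intro x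
        refine Finset.card_le_card_of_injOn (fun y => y + x) ?_ ?_
        · intro y hy
          exact (Finset.mem_filter.1 (Finset.mem_coe.1 hy)).2
        · intro y _ y' _ h
          exact add_right_cancel h
      calc ∑ x : Fin n → ZMod 2, (Fintype.piFinset
            (fun _ : Fin k₂ => univ.filter (fun y => y + x ∈ Unc G d))).card ≤
            ∑ _x : Fin n → ZMod 2, (Unc G d).card ^ k₂ := by
            refine Finset.sum_le_sum fun x _ => ?_
            rw [Fintype.card_piFinset, Finset.prod_const, Finset.card_univ, Fintype.card_fin]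
            exact Nat.pow_le_pow_left (h1 x) k₂
        _ = _ := by
            rw [Finset.sum_const, Finset.card_univ, Fintype.card_fun, ZMod.card, Fintype.card_fin,
              smul_eq_mul]
    · rw [Finset.card_univ, Fintype.card_fun, Fintype.card_fun, ZMod.card, Fintype.card_fin,
        Fintype.card_fin]
  refine le_trans ?_ (Finset.sum_le_sum fun G _ => hcard G)
  rw [← Finset.card_sigma]
  refine Finset.card_le_card_of_injOn
    (fun G => ⟨fun i => G (Fin.castAdd k₂ i), fun j => G (Fin.natAdd k₁ j)⟩) ?_ ?_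
  · intro G hG
    rw [Finset.mem_coe] at hG ⊢
    unfold CC at hG
    rw [Finset.mem_filter] at hG
    rw [Finset.mem_sigma]
    refine ⟨Finset.mem_univ _, ?_⟩
    rw [hF]
    show (fun j => G (Fin.natAdd k₁ j)) ∈ (if Good n q (fun i => G (Fin.castAdd k₂ i)) (ball n t)
      then univ.biUnion (fun x : Fin n → ZMod 2 =>
        Fintype.piFinset (fun _ : Fin k₂ => univ.filter (fun y => y + x ∈
          Unc (fun i => G (Fin.castAdd k₂ i)) d)))
        else univ)
    split_ifs with h
    · obtain ⟨_, x, hx⟩ := hG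
      refine Finset.mem_biUnion.2 ⟨x, Finset.mem_univ _, ?_⟩
      rw [Fintype.mem_piFinset]
      intro j
      rw [Finset.mem_filter]
      refine ⟨Finset.mem_univ _, ?_⟩
      unfold Unc
      rw [Finset.mem_filter]
      refine ⟨Finset.mem_univ _, fun u => ?_⟩
      have h1 := hx (Fin.append u (Pi.single j 1))
      have h4 : ev G (Fin.append u (Pi.single j 1)) =
          ev (fun i => G (Fin.castAdd k₂ i)) u + G (Fin.natAdd k₁ j) := by
        rw [ev_apply, ev_apply, Fin.sum_univ_add]
        congr 1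
        · refine Finset.sum_congr rfl fun i _ => ?_
          rw [Fin.append_left]
        · rw [Finset.sum_eq_single j]
          · rw [Fin.append_right, Pi.single_eq_same, one_smul]
          · intro l _ hl
            rw [Fin.append_right, Pi.single_eq_of_ne hl, zero_smul]
          · intro h
            exact absurd (Finset.mem_univ _) h
      rw [h4, add_assoc] at h1
      exact h1
    · exact Finset.mem_univ _
  · intro G _ G' _ hGG
    have e1 : (fun i => G (Fin.castAdd k₂ i)) = (fun i => G' (Fin.castAdd k₂ i)) :=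
      congrArg Sigma.fst hGG
    have e2 : (fun j => G (Fin.natAdd k₁ j)) = (fun j => G' (Fin.natAdd k₁ j)) := by
      have := hGG
      simp only [Sigma.mk.injEq] at this
      exact eq_of_heq this.2
    funext i
    refine Fin.addCases (fun i => ?_) (fun j => ?_) i
    · exact congrFun e1 i
    · exact congrFun e2 j

theorem CC_le {n k₁ k₂ q t d : ℕ} {θ : ℝ} (hθ : 1 ≤ θ)
    (hB : 2 ^ n ≤ 2 ^ k₁ * (ball n t).card) :
    ((CC n (k₁ + k₂) d).card : ℝ) ≤
      ((n + 1) * 2 ^ q / 2 ^ (q * q) + 2 ^ n * MM n q (d - t) θ ^ k₂) * 2 ^ (n * (k₁ + k₂)) := by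
  classical
  have hV : Fintype.card (Fin n → ZMod 2) = 2 ^ n := by
    rw [Fintype.card_fun, ZMod.card, Fintype.card_fin]
  have h1 : ((CC n (k₁ + k₂) d).card : ℝ) ≤
      ∑ G : Fin k₁ → (Fin n → ZMod 2),
        (if Good n q G (ball n t) then 2 ^ n * ((Unc G d).card : ℝ) ^ k₂
          else ((2 : ℝ) ^ n) ^ k₂) := by
    have := split' (n := n) (k₁ := k₁) (k₂ := k₂) (q := q) (t := t) (d := d)
    exact_mod_cast this
  have hθ0 : 0 < θ := by linarith
  have hM0 : 0 ≤ MM n q (d - t) θ := by
    unfold MM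
    positivity
  have h2 : ∑ G : Fin k₁ → (Fin n → ZMod 2),
        (if Good n q G (ball n t) then 2 ^ n * ((Unc G d).card : ℝ) ^ k₂
          else ((2 : ℝ) ^ n) ^ k₂) ≤
      ∑ G : Fin k₁ → (Fin n → ZMod 2), (2 ^ n * (MM n q (d - t) θ * 2 ^ n) ^ k₂ +
        (if ¬ Good n q G (ball n t) then ((2 : ℝ) ^ n) ^ k₂ else 0)) := by
    refine Finset.sum_le_sum fun G _ => ?_
    by_cases h : Good n q G (ball n t)
    · rw [if_pos h, if_neg (not_not.2 h), add_zero]
      exact mul_le_mul_of_nonneg_left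
        (pow_le_pow_left₀ (by positivity) (unc_le hθ G h hB) k₂) (by positivity)
    · rw [if_neg h, if_pos h]
      have : (0 : ℝ) ≤ 2 ^ n * (MM n q (d - t) θ * 2 ^ n) ^ k₂ := by positivity
      linarith
  refine h1.trans (h2.trans ?_)
  rw [Finset.sum_add_distrib, Finset.sum_const, nsmul_eq_mul, ← Finset.sum_filter,
    Finset.sum_const, nsmul_eq_mul]
  have h3 : ((Finset.univ : Finset (Fin k₁ → (Fin n → ZMod 2))).card : ℝ) = 2 ^ (n * k₁) := by
    rw [Finset.card_univ, Fintype.card_fun, hV, Fintype.card_fin]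
    push_cast
    rw [pow_mul]
  rw [h3]
  have h4 := not_good (k := k₁) (q := q) hV (ball n t)
  obtain ⟨N, hN⟩ : ∃ N : ℝ, N = ((univ.filter
    (fun G : Fin k₁ → (Fin n → ZMod 2) => ¬ Good n q G (ball n t))).card : ℝ) := ⟨_, rfl⟩
  rw [← hN] at h4 ⊢
  have h5 : N ≤ (n + 1) * 2 ^ q / 2 ^ (q * q) * 2 ^ (n * k₁) := by
    rw [div_mul_eq_mul_div, le_div_iff₀ (by positivity)]
    calc N * (2 : ℝ) ^ (q * q) ≤ (n + 1) * (2 ^ q * (2 : ℝ) ^ (n * k₁)) := h4
      _ = _ := by ring
  have h6 : (2 : ℝ) ^ (n * (k₁ + k₂)) = 2 ^ (n * k₁) * (2 ^ n) ^ k₂ := by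
    rw [mul_add, pow_add, pow_mul 2 n k₂]
  rw [h6]
  calc (2 : ℝ) ^ (n * k₁) * (2 ^ n * (MM n q (d - t) θ * 2 ^ n) ^ k₂) + N * ((2 : ℝ) ^ n) ^ k₂ ≤
        (2 : ℝ) ^ (n * k₁) * (2 ^ n * (MM n q (d - t) θ * 2 ^ n) ^ k₂) +
          ((n + 1) * 2 ^ q / 2 ^ (q * q) * 2 ^ (n * k₁)) * ((2 : ℝ) ^ n) ^ k₂ := by
        have := mul_le_mul_of_nonneg_right h5 (show (0 : ℝ) ≤ ((2 : ℝ) ^ n) ^ k₂ by positivity)
        linarith
    _ = _ := by
        rw [mul_pow]
        ring

/-- the number of codes of dimension `k` with covering radius at least `r` -/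
noncomputable def numRad (n k : ℕ) (r : ℝ) : ℕ :=
  Nat.card {W : Submodule (ZMod 2) (Fin n → ZMod 2) // Module.finrank (ZMod 2) W = k ∧
    ∃ x, ∀ w ∈ W, r ≤ (hammingDist w x : ℝ)}

lemma hammingDist_eq {n : ℕ} (w x : Fin n → ZMod 2) : hammingDist w x = hammingNorm (w + x) := by
  rw [hammingDist_eq_hammingNorm]
  congr 1
  funext i
  simp only [Pi.neg_apply, Pi.add_apply]
  rw [CharTwo.neg_eq]

lemma numRad_mul {n k d : ℕ} {r : ℝ} (hd : (d : ℝ) < r + 1) :
    numRad n k r * bb k k ≤ (CC n k d).card := by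
  have h1 := card_tuples (V := Fin n → ZMod 2) (k := k)
    (fun W => ∃ x, ∀ w ∈ W, r ≤ (hammingDist w x : ℝ))
  have h2 : numRad n k r * bb k k = Nat.card {G : Fin k → (Fin n → ZMod 2) //
      LinearIndependent (ZMod 2) G ∧ ∃ x, ∀ w ∈ Submodule.span (ZMod 2) (Set.range G),
        r ≤ (hammingDist w x : ℝ)} := h1.symm
  rw [h2]
  have h3 : Nat.card {G // G ∈ CC n k d} = (CC n k d).card := by
    rw [Nat.card_eq_fintype_card, Fintype.card_coe]
  rw [← h3]
  haveI : Finite {G // G ∈ CC n k d} := inferInstance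
  refine Nat.card_le_card_of_injective (fun G => ⟨G.1, ?_⟩) ?_
  · unfold CC
    rw [Finset.mem_filter]
    obtain ⟨x, hx⟩ := G.2.2
    refine ⟨Finset.mem_univ _, x, fun u => ?_⟩
    have h4 : ev G.1 u ∈ Submodule.span (ZMod 2) (Set.range G.1) := by
      rw [← Fintype.range_linearCombination (ZMod 2) (v := G.1)]
      exact ⟨u, rfl⟩
    have h8 := hx _ h4
    rw [hammingDist_eq] at h8
    have h9 : (d : ℝ) < hammingNorm (ev G.1 u + x) + 1 := by linarith
    have h10 : d < hammingNorm (ev G.1 u + x) + 1 := by exact_mod_cast h9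
    omega
  · intro G G' h
    have h' := Subtype.ext_iff.1 h
    exact Subtype.ext h'

lemma numRad_le {n k d : ℕ} (hk : k ≤ n) {r : ℝ} (hd : (d : ℝ) < r + 1) {p : ℝ} (hp : 0 ≤ p)
    (h : ((CC n k d).card : ℝ) ≤ p * 2 ^ (n * k)) :
    (numRad n k r : ℝ) ≤ 4 * p * numCodes n k := by
  have h1 : (numRad n k r : ℝ) * bb k k ≤ (CC n k d).card := by
    exact_mod_cast numRad_mul hd
  have h2 : (numCodes n k : ℝ) * bb k k = bb n k := by
    exact_mod_cast numCodes_mul hk
  have h3 := bb_ge' hk
  have h4 := bb_ge' (le_refl k)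
  have h5 : (0 : ℝ) < bb k k := by
    have : (0 : ℝ) < 2 ^ (k * k) := by positivity
    linarith
  have h6 : (numRad n k r : ℝ) * bb k k ≤ (4 * p * numCodes n k) * bb k k := by
    calc (numRad n k r : ℝ) * bb k k ≤ p * 2 ^ (n * k) := h1.trans h
      _ ≤ p * (4 * bb n k) := mul_le_mul_of_nonneg_left h3 hp
      _ = _ := by rw [← h2]; ring
  exact le_of_mul_le_mul_right h6 h5

/-- words vanishing on the first `m` coordinates -/
def Zm (n m : ℕ) : Submodule (ZMod 2) (Fin n → ZMod 2) where
  carrier := {x | ∀ i : Fin n, (i : ℕ) < m → x i = 0}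
  add_mem' := by
    intro a b ha hb i hi
    rw [Pi.add_apply, ha i hi, hb i hi, add_zero]
  zero_mem' := by
    intro i _
    rfl
  smul_mem' := by
    intro c x hx i hi
    rw [Pi.smul_apply, hx i hi, smul_zero]

/-- `F_2^(n-m)` is `Zm` -/
noncomputable def ZmEquiv {n m : ℕ} (h : m ≤ n) : Zm n m ≃ₗ[ZMod 2] (Fin (n - m) → ZMod 2) where
  toFun x := fun i => x.1 ⟨m + i, by omega⟩
  map_add' _ _ := rfl
  map_smul' _ _ := rfl
  invFun y := ⟨fun i => if hi : (i : ℕ) < m then 0 else y ⟨i - m, by omega⟩, by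
    intro i hi
    simp only [dif_pos hi]⟩
  left_inv x := by
    apply Subtype.ext
    funext i
    by_cases hi : (i : ℕ) < m
    · simp only [dif_pos hi]
      exact (x.2 i hi).symm
    · simp only [dif_neg hi]
      exact congrArg x.1 (Fin.ext (show m + ((i : ℕ) - m) = i by omega))
  right_inv y := by
    funext i
    simp

/-- a lower bound for the number of codes with large covering radius -/
lemma numRad_ge {n k m : ℕ} (hk : k + m ≤ n) {r : ℝ} (hr : r ≤ m) :
    (numCodes n k : ℝ) ≤ 4 * 2 ^ (m * k) * numRad n k r := by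
  have h1 := card_tuples (V := Fin n → ZMod 2) (k := k) (fun W => W ≤ Zm n m)
  obtain ⟨N, hN⟩ : ∃ N : ℕ, N = Nat.card {W : Submodule (ZMod 2) (Fin n → ZMod 2) //
    Module.finrank (ZMod 2) W = k ∧ W ≤ Zm n m} := ⟨_, rfl⟩
  have h2 : Nat.card {G : Fin k → (Fin n → ZMod 2) // LinearIndependent (ZMod 2) G ∧
      Submodule.span (ZMod 2) (Set.range G) ≤ Zm n m} =
      Nat.card {s : Fin k → Zm n m // LinearIndependent (ZMod 2) s} := by
    refine Nat.card_congr ⟨fun G => ⟨fun i => ⟨G.1 i, G.2.2 (Submodule.subset_span ⟨i, rfl⟩)⟩,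
      LinearIndependent.of_comp (Zm n m).subtype G.2.1⟩,
      fun s => ⟨fun i => (s.1 i : Fin n → ZMod 2),
        s.2.map' (Zm n m).subtype (Submodule.ker_subtype _), ?_⟩, ?_, ?_⟩
    · rw [Submodule.span_le]
      rintro _ ⟨i, rfl⟩
      exact (s.1 i).2
    · intro G
      rfl
    · intro s
      rfl
  have hfr : Module.finrank (ZMod 2) (Zm n m) = n - m := by
    rw [(ZmEquiv (by omega : m ≤ n)).finrank_eq, Module.finrank_fintype_fun_eq_card,
      Fintype.card_fin]
  rw [h2, card_linearIndependent (by rw [hfr]; omega), hfr, ZMod.card] at h1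
  have h3 : bb (n - m) k = N * bb k k := by
    rw [hN]
    exact h1
  have h4 : N ≤ numRad n k r := by
    rw [hN]
    unfold numRad
    haveI : Finite (Submodule (ZMod 2) (Fin n → ZMod 2)) :=
      Finite.of_injective (fun W => (W : Set (Fin n → ZMod 2))) SetLike.coe_injective
    refine Nat.card_le_card_of_injective (fun W => ⟨W.1, W.2.1, fun _ => 1, fun w hw => ?_⟩) ?_
    · refine hr.trans ?_
      have h5 : m ≤ hammingDist w (fun _ => 1) := by
        unfold hammingDist
        have h6 : ((univ : Finset (Fin m))).card = m := by simp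
        conv_lhs => rw [← h6]
        refine Finset.card_le_card_of_injOn (fun i => (⟨i, by omega⟩ : Fin n)) ?_ ?_
        · intro i _
          rw [Finset.mem_coe, Finset.mem_filter]
          refine ⟨Finset.mem_univ _, ?_⟩
          rw [W.2.2 hw _ i.2]
          exact zero_ne_one
        · intro i _ j _ hij
          have := Fin.ext_iff.1 hij
          exact Fin.ext this
      exact_mod_cast h5
    · intro W W' h
      have h' := Subtype.ext_iff.1 h
      exact Subtype.ext h'
  have h5 : (numCodes n k : ℝ) * bb k k = bb n k := by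
    exact_mod_cast numCodes_mul (by omega : k ≤ n)
  have h6 : (bb n k : ℝ) ≤ 2 ^ (n * k) := by exact_mod_cast bb_le n k
  have h7 := bb_ge' (show k ≤ n - m by omega)
  have h8 : (2 : ℝ) ^ (n * k) = 2 ^ (m * k) * 2 ^ ((n - m) * k) := by
    rw [← pow_add]
    congr 1
    rw [← add_mul]
    congr 1
    omega
  have h9 := bb_ge' (le_refl k)
  have h10 : (0 : ℝ) < bb k k := by
    have : (0 : ℝ) < 2 ^ (k * k) := by positivity
    linarith
  have h11 : (bb (n - m) k : ℝ) = N * bb k k := by exact_mod_cast h3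
  have h12 : (N : ℝ) ≤ numRad n k r := by exact_mod_cast h4
  have h13 : (numCodes n k : ℝ) * bb k k ≤ (4 * 2 ^ (m * k) * numRad n k r) * bb k k := by
    calc (numCodes n k : ℝ) * bb k k ≤ 2 ^ (m * k) * 2 ^ ((n - m) * k) := by
          rw [h5, ← h8]; exact h6
      _ ≤ 2 ^ (m * k) * (4 * bb (n - m) k) := mul_le_mul_of_nonneg_left h7 (by positivity)
      _ = 4 * 2 ^ (m * k) * N * bb k k := by rw [h11]; ring
      _ ≤ _ := by
          apply mul_le_mul_of_nonneg_right _ h10.le
          exact mul_le_mul_of_nonneg_left h12 (by positivity)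
  exact le_of_mul_le_mul_right h13 h10

end Pool.Agent.U121.LC
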