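import Pool.Agent.U121.LC.Dist

/-!
U121/LC (helper121, MP_0430e4_lc): from generator matrices to linear codes.
-/

set_option autoImplicit false
set_option linter.style.haveILetI false

namespace Pool.Agent.U121.LC

open Finset

section gen

variable {V : Type} [AddCommGroup V] [Module (ZMod 2) V] [Finite V]

/-- a basis tuple of a subspace -/
lemma span_coe {k : ℕ} (W : Submodule (ZMod 2) V) (hW : Module.finrank (ZMod 2) W = k)
    (s : Fin k → W) (hs : LinearIndependent (ZMod 2) s) :
    Submodule.span (ZMod 2) (Set.range (fun i => (s i : V))) = W := by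
  have h1 : Submodule.span (ZMod 2) (Set.range (fun i => (s i : V))) ≤ W := by
    rw [Submodule.span_le]
    rintro _ ⟨i, rfl⟩
    exact (s i).2
  have h2 : LinearIndependent (ZMod 2) (fun i => (s i : V)) :=
    hs.map' W.subtype (Submodule.ker_subtype W)
  haveI : Module.Finite (ZMod 2) V := Module.Finite.of_finite
  refine Submodule.eq_of_le_of_finrank_eq h1 ?_
  rw [finrank_span_eq_card h2, hW, Fintype.card_fin]

/-- counting tuples through their span -/
lemma card_tuples {k : ℕ} (Q : Submodule (ZMod 2) V → Prop) :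
    Nat.card {G : Fin k → V // LinearIndependent (ZMod 2) G ∧
      Q (Submodule.span (ZMod 2) (Set.range G))} =
    Nat.card {W : Submodule (ZMod 2) V // Module.finrank (ZMod 2) W = k ∧ Q W} *
      ∏ i : Fin k, (2 ^ k - 2 ^ (i : ℕ)) := by
  classical
  haveI : Module.Finite (ZMod 2) V := Module.Finite.of_finite
  haveI : Finite (Submodule (ZMod 2) V) := Finite.of_injective (fun W => (W : Set V))
    SetLike.coe_injective
  obtain ⟨φ, hφ⟩ : ∃ φ : {G : Fin k → V // LinearIndependent (ZMod 2) G ∧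
      Q (Submodule.span (ZMod 2) (Set.range G))} →
      {W : Submodule (ZMod 2) V // Module.finrank (ZMod 2) W = k ∧ Q W},
      ∀ G, (φ G).1 = Submodule.span (ZMod 2) (Set.range G.1) :=
    ⟨fun G => ⟨Submodule.span (ZMod 2) (Set.range G.1), by
      rw [finrank_span_eq_card G.2.1, Fintype.card_fin], G.2.2⟩, fun G => rfl⟩
  haveI : Fintype {W : Submodule (ZMod 2) V // Module.finrank (ZMod 2) W = k ∧ Q W} :=
    Fintype.ofFinite _
  rw [← Nat.card_congr (Equiv.sigmaFiberEquiv φ), Nat.card_sigma]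
  have h1 : ∀ W, Nat.card {G // φ G = W} = ∏ i : Fin k, (2 ^ k - 2 ^ (i : ℕ)) := by
    intro W
    haveI : Finite W.1 := inferInstance
    have h2 := card_linearIndependent (K := ZMod 2) (V := W.1) (k := k) (by rw [W.2.1])
    rw [W.2.1, ZMod.card] at h2
    rw [← h2]
    refine Nat.card_congr ⟨fun G => ⟨fun i => ⟨G.1.1 i, ?_⟩, ?_⟩, fun s => ⟨⟨fun i => (s.1 i : V), ?_, ?_⟩, ?_⟩,
      ?_, ?_⟩
    · have h3 : W.1 = Submodule.span (ZMod 2) (Set.range G.1.1) := by
        rw [← hφ, G.2]
      rw [h3]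
      exact Submodule.subset_span ⟨i, rfl⟩
    · exact LinearIndependent.of_comp W.1.subtype G.1.2.1
    · exact s.2.map' W.1.subtype (Submodule.ker_subtype W.1)
    · rw [span_coe W.1 W.2.1 s.1 s.2]
      exact W.2.2
    · apply Subtype.ext
      rw [hφ]
      exact span_coe W.1 W.2.1 s.1 s.2
    · intro G
      rfl
    · intro s
      rfl
  rw [Finset.sum_congr rfl (fun W _ => h1 W), Finset.sum_const, smul_eq_mul, Nat.card_eq_fintype_card,
    Finset.card_univ]

end gen

/-- the product of the numbers of choices -/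
def bb (m k : ℕ) : ℕ := ∏ i : Fin k, (2 ^ m - 2 ^ (i : ℕ))

lemma bb_succ (m k : ℕ) : bb (m + 1) (k + 1) = (2 ^ (m + 1) - 1) * (2 ^ k * bb m k) := by
  unfold bb
  rw [Fin.prod_univ_succ]
  simp only [Fin.val_zero, pow_zero, Fin.val_succ]
  congr 1
  have : ∀ i : Fin k, 2 ^ (m + 1) - 2 ^ ((i : ℕ) + 1) = 2 * (2 ^ m - 2 ^ (i : ℕ)) := by
    intro i
    rw [pow_succ, pow_succ, Nat.mul_sub]
    ring_nf
  simp only [this]
  rw [Finset.prod_mul_distrib]
  simp

lemma bb_ge : ∀ k m : ℕ, k ≤ m → ((1 : ℝ) / 4 + 1 / 2 ^ (m + 1)) * 2 ^ (m * k) ≤ bb m k := by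
  intro k
  induction k with
  | zero =>
    intro m _
    unfold bb
    simp only [mul_zero, pow_zero, mul_one, Finset.univ_eq_empty, Finset.prod_empty, Nat.cast_one]
    have : (1 : ℝ) / 2 ^ (m + 1) ≤ 1 / 2 := by
      apply one_div_le_one_div_of_le (by norm_num)
      calc (2 : ℝ) = 2 ^ 1 := by norm_num
        _ ≤ 2 ^ (m + 1) := pow_le_pow_right₀ (by norm_num) (by omega)
    linarith
  | succ k ih =>
    intro m hm
    obtain ⟨m, rfl⟩ : ∃ m', m = m' + 1 := ⟨m - 1, by omega⟩
    rw [bb_succ]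
    rcases Nat.eq_zero_or_pos m with h0 | h0
    · subst h0
      have : k = 0 := by omega
      subst this
      unfold bb
      norm_num
    · have h1 := ih m (by omega)
      have h2 : ((2 ^ (m + 1) - 1 : ℕ) : ℝ) = 2 ^ (m + 1) - 1 := by
        rw [Nat.cast_sub Nat.one_le_two_pow]
        push_cast
        rfl
      push_cast
      rw [Nat.cast_sub Nat.one_le_two_pow]
      push_cast
      obtain ⟨x, hx⟩ : ∃ x : ℝ, x = 1 / 2 ^ (m + 1) := ⟨_, rfl⟩
      have hx0 : 0 < x := by rw [hx]; positivity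
      have hx4 : x ≤ 1 / 4 := by
        rw [hx]
        apply one_div_le_one_div_of_le (by norm_num)
        calc (4 : ℝ) = 2 ^ 2 := by norm_num
          _ ≤ 2 ^ (m + 1) := pow_le_pow_right₀ (by norm_num) (by omega)
      have e1 : (1 : ℝ) / 2 ^ (m + 1 + 1) = x / 2 := by
        rw [hx, pow_succ]
        field_simp
      have e2 : ((2 : ℝ) ^ (m + 1) - 1) = 2 ^ (m + 1) * (1 - x) := by
        rw [hx]
        field_simp
      have e3 : (2 : ℝ) ^ ((m + 1) * (k + 1)) = 2 ^ (m + 1) * (2 ^ k * 2 ^ (m * k)) := by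
        rw [← pow_add, ← pow_add]
        congr 1
        ring
      rw [← hx] at h1
      rw [e1, e2, e3]
      have hp : (0 : ℝ) < 2 ^ (m + 1) := by positivity
      have hpk : (0 : ℝ) < 2 ^ k := by positivity
      have hpm : (0 : ℝ) < 2 ^ (m * k) := by positivity
      calc (1 / 4 + x / 2) * (2 ^ (m + 1) * (2 ^ k * 2 ^ (m * k))) ≤
            ((1 - x) * (1 / 4 + x)) * (2 ^ (m + 1) * (2 ^ k * 2 ^ (m * k))) := by
            apply mul_le_mul_of_nonneg_right _ (by positivity)
            nlinarith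
        _ = 2 ^ (m + 1) * (1 - x) * (2 ^ k * ((1 / 4 + x) * 2 ^ (m * k))) := by ring
        _ ≤ 2 ^ (m + 1) * (1 - x) * (2 ^ k * bb m k) := by
            apply mul_le_mul_of_nonneg_left _ (by
              apply mul_nonneg hp.le
              linarith)
            exact mul_le_mul_of_nonneg_left h1 hpk.le

lemma bb_ge' {k m : ℕ} (h : k ≤ m) : (2 : ℝ) ^ (m * k) ≤ 4 * bb m k := by
  have h1 := bb_ge k m h
  have h2 : (0 : ℝ) < 1 / 2 ^ (m + 1) := by positivity
  have h3 : (0 : ℝ) < 2 ^ (m * k) := by positivity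
  nlinarith

lemma bb_le (m k : ℕ) : bb m k ≤ 2 ^ (m * k) := by
  unfold bb
  calc ∏ i : Fin k, (2 ^ m - 2 ^ (i : ℕ)) ≤ ∏ _i : Fin k, 2 ^ m :=
        Finset.prod_le_prod' fun i _ => Nat.sub_le _ _
    _ = 2 ^ (m * k) := by simp [pow_mul]

/-- the number of binary linear codes of length `n` and dimension `k` -/
noncomputable def numCodes (n k : ℕ) : ℕ :=
  Nat.card {W : Submodule (ZMod 2) (Fin n → ZMod 2) // Module.finrank (ZMod 2) W = k}

/-- the number of those with minimum distance at least `r` -/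
noncomputable def numDist (n k : ℕ) (r : ℝ) : ℕ :=
  Nat.card {W : Submodule (ZMod 2) (Fin n → ZMod 2) // Module.finrank (ZMod 2) W = k ∧
    ∀ x ∈ W, x ≠ 0 → r ≤ (hammingNorm x : ℝ)}

lemma numCodes_mul {n k : ℕ} (hk : k ≤ n) : numCodes n k * bb k k = bb n k := by
  have h1 := card_tuples (V := Fin n → ZMod 2) (k := k) (fun _ => True)
  have h2 : Nat.card {G : Fin k → (Fin n → ZMod 2) // LinearIndependent (ZMod 2) G ∧ True} =
      Nat.card {G : Fin k → (Fin n → ZMod 2) // LinearIndependent (ZMod 2) G} :=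
    Nat.card_congr (Equiv.subtypeEquivRight fun G => by simp)
  have h3 : Nat.card {W : Submodule (ZMod 2) (Fin n → ZMod 2) //
      Module.finrank (ZMod 2) W = k ∧ True} = numCodes n k :=
    Nat.card_congr (Equiv.subtypeEquivRight fun G => by simp)
  rw [h2, h3, card_linearIndependent (by
    rw [Module.finrank_fintype_fun_eq_card, Fintype.card_fin]; exact hk),
    Module.finrank_fintype_fun_eq_card, Fintype.card_fin, ZMod.card] at h1
  exact h1.symm

lemma numDist_mul {n k d : ℕ} {r : ℝ} (hd : (d : ℝ) < r + 1) :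
    numDist n k r * bb k k ≤ (PP n k d).card := by
  have h1 := card_tuples (V := Fin n → ZMod 2) (k := k)
    (fun W => ∀ x ∈ W, x ≠ 0 → r ≤ (hammingNorm x : ℝ))
  have h2 : numDist n k r * bb k k = Nat.card {G : Fin k → (Fin n → ZMod 2) //
      LinearIndependent (ZMod 2) G ∧ ∀ x ∈ Submodule.span (ZMod 2) (Set.range G), x ≠ 0 →
        r ≤ (hammingNorm x : ℝ)} := h1.symm
  rw [h2]
  have h3 : Nat.card {G // G ∈ PP n k d} = (PP n k d).card := by
    rw [Nat.card_eq_fintype_card, Fintype.card_coe]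
  rw [← h3]
  haveI : Finite {G // G ∈ PP n k d} := inferInstance
  refine Nat.card_le_card_of_injective (fun G => ⟨G.1, ?_⟩) ?_
  · unfold PP
    rw [Finset.mem_filter]
    refine ⟨Finset.mem_univ _, fun u hu => ?_⟩
    have h4 : ev G.1 u ∈ Submodule.span (ZMod 2) (Set.range G.1) := by
      rw [← Fintype.range_linearCombination (ZMod 2) (v := G.1)]
      exact ⟨u, rfl⟩
    have h5 : ev G.1 u ≠ 0 := by
      intro h6
      apply hu
      have h7 := linearIndependent_iff_injective_fintypeLinearCombination.1 G.2.1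
      apply h7
      rw [map_zero]
      exact h6
    have h8 := G.2.2 _ h4 h5
    have h9 : (d : ℝ) < hammingNorm (ev G.1 u) + 1 := by linarith
    have h10 : d < hammingNorm (ev G.1 u) + 1 := by exact_mod_cast h9
    omega
  · intro G G' h
    have h' := Subtype.ext_iff.1 h
    exact Subtype.ext h'

/-- proportions of codes and of matrices -/
lemma numDist_le {n k d : ℕ} (hk : k ≤ n) {r : ℝ} (hd : (d : ℝ) < r + 1) {p : ℝ} (hp : 0 ≤ p)
    (h : ((PP n k d).card : ℝ) ≤ p * 2 ^ (n * k)) :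
    (numDist n k r : ℝ) ≤ 4 * p * numCodes n k := by
  have h1 : (numDist n k r : ℝ) * bb k k ≤ (PP n k d).card := by
    exact_mod_cast numDist_mul hd
  have h2 : (numCodes n k : ℝ) * bb k k = bb n k := by
    exact_mod_cast numCodes_mul hk
  have h3 := bb_ge' hk
  have h4 := bb_ge' (le_refl k)
  have h5 : (0 : ℝ) < bb k k := by
    have : (0 : ℝ) < 2 ^ (k * k) := by positivity
    linarith
  have h6 : (numDist n k r : ℝ) * bb k k ≤ (4 * p * numCodes n k) * bb k k := by
    calc (numDist n k r : ℝ) * bb k k ≤ p * 2 ^ (n * k) := h1.trans h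
      _ ≤ p * (4 * bb n k) := mul_le_mul_of_nonneg_left h3 hp
      _ = _ := by rw [← h2]; ring
  exact le_of_mul_le_mul_right h6 h5

/-- the number of codes -/
lemma numCodes_le {n k : ℕ} (hk : k ≤ n) : (numCodes n k : ℝ) ≤ 4 * 2 ^ ((n : ℝ) ^ 2 / 4) := by
  have h2 : (numCodes n k : ℝ) * bb k k = bb n k := by
    exact_mod_cast numCodes_mul hk
  have h3 : (bb n k : ℝ) ≤ 2 ^ (n * k) := by exact_mod_cast bb_le n k
  have h4 := bb_ge' (le_refl k)
  have h5 : (0 : ℝ) < 2 ^ (k * k) := by positivity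
  have h6 : (numCodes n k : ℝ) * 2 ^ (k * k) ≤ (4 * 2 ^ ((n : ℝ) ^ 2 / 4)) * 2 ^ (k * k) := by
    calc (numCodes n k : ℝ) * 2 ^ (k * k) ≤ (numCodes n k : ℝ) * (4 * bb k k) :=
          mul_le_mul_of_nonneg_left h4 (by positivity)
      _ = 4 * bb n k := by rw [← h2]; ring
      _ ≤ 4 * 2 ^ (n * k) := by linarith
      _ ≤ 4 * (2 ^ ((n : ℝ) ^ 2 / 4) * 2 ^ (k * k)) := by
          apply mul_le_mul_of_nonneg_left _ (by norm_num)
          rw [← Real.rpow_natCast 2 (n * k), ← Real.rpow_natCast 2 (k * k),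
            ← Real.rpow_add (by norm_num)]
          apply Real.rpow_le_rpow_of_exponent_le (by norm_num)
          push_cast
          nlinarith [sq_nonneg ((n : ℝ) - 2 * k)]
      _ = _ := by ring
  exact le_of_mul_le_mul_right h6 h5

end Pool.Agent.U121.LC
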